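import Mathlib

/-!
From global to local triviality of representations (Mal'cev's local theorem, over commutative
rings).
-/

set_option autoImplicit false

universe u v

namespace H64.BTL

open Filter

section
variable {G : Type u} [Group G]

/-- the finitely generated subgroup belonging to a finite set -/
def KS (g : G) (S : Finset G) : Subgroup G := Subgroup.closure (insert g (S : Set G))

theorem KS_fg (g : G) (S : Finset G) : (KS g S).FG := by
  classical
  refine ⟨insert g S, ?_⟩
  rw [Finset.coe_insert]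
  rfl

theorem mem_KS (g : G) (S : Finset G) : g ∈ KS g S :=
  Subgroup.subset_closure (Set.mem_insert _ _)

theorem mem_KS' (g : G) {S : Finset G} {x : G} (hx : x ∈ S) : x ∈ KS g S :=
  Subgroup.subset_closure (Set.mem_insert_of_mem _ hx)

variable {R : Finset G → Type v} [∀ S, CommRing (R S)] {n : ℕ}

/-- the ideal of the families which vanish eventually -/
def evI (R : Finset G → Type v) [∀ S, CommRing (R S)] : Ideal (∀ S, R S) where
  carrier := {f | ∀ᶠ S in atTop, f S = 0}
  zero_mem' := Eventually.of_forall fun S => rfl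
  add_mem' := by
    intro a b ha hb
    filter_upwards [ha, hb] with S h1 h2
    show a S + b S = 0
    rw [h1, h2, add_zero]
  smul_mem' := by
    intro c a ha
    filter_upwards [ha] with S h1
    show c S * a S = 0
    rw [h1, mul_zero]

open Classical in
/-- the family of matrices of an element -/
noncomputable def fam {g : G} (ρ : ∀ S, KS g S →* Matrix (Fin n) (Fin n) (R S)) (x : G) :
    Matrix (Fin n) (Fin n) (∀ S, R S) :=
  fun i j S => if h : x ∈ KS g S then ρ S ⟨x, h⟩ i j else 0

theorem fam_eq {g : G} (ρ : ∀ S, KS g S →* Matrix (Fin n) (Fin n) (R S)) {x : G} {S : Finset G}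
    (h : x ∈ KS g S) (i j : Fin n) : fam ρ x i j S = ρ S ⟨x, h⟩ i j := by
  unfold fam
  rw [dif_pos h]

/-- the limit representation -/
noncomputable def lrep {g : G} (ρ : ∀ S, KS g S →* Matrix (Fin n) (Fin n) (R S)) :
    G →* Matrix (Fin n) (Fin n) ((∀ S, R S) ⧸ evI R) where
  toFun x := (Ideal.Quotient.mk (evI R)).mapMatrix (fam ρ x)
  map_one' := by
    rw [← map_one (Ideal.Quotient.mk (evI R)).mapMatrix]
    congr 1
    ext i j S
    rw [fam_eq ρ (one_mem _)]
    have h1 : (⟨1, one_mem _⟩ : KS g S) = 1 := rfl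
    rw [h1, map_one]
    by_cases hij : i = j
    · subst hij
      rw [Matrix.one_apply_eq, Matrix.one_apply_eq]
      rfl
    · rw [Matrix.one_apply_ne hij, Matrix.one_apply_ne hij]
      rfl
  map_mul' := by
    intro x y
    rw [← map_mul, ← sub_eq_zero, ← map_sub]
    ext i j
    refine Ideal.Quotient.eq_zero_iff_mem.2 ?_
    show ∀ᶠ S in atTop, (fam ρ (x * y) - fam ρ x * fam ρ y) i j S = 0
    filter_upwards [eventually_ge_atTop ({x} : Finset G), eventually_ge_atTop ({y} : Finset G)]
      with S hx hy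
    have hx' : x ∈ KS g S := mem_KS' g (hx (Finset.mem_singleton_self x))
    have hy' : y ∈ KS g S := mem_KS' g (hy (Finset.mem_singleton_self y))
    have h1 : (fam ρ x * fam ρ y) i j S = (ρ S ⟨x, hx'⟩ * ρ S ⟨y, hy'⟩) i j := by
      rw [Matrix.mul_apply, Matrix.mul_apply, Finset.sum_apply]
      refine Finset.sum_congr rfl fun l _ => ?_
      show fam ρ x i l S * fam ρ y l j S = _
      rw [fam_eq ρ hx', fam_eq ρ hy']
    show fam ρ (x * y) i j S - (fam ρ x * fam ρ y) i j S = 0
    rw [h1, fam_eq ρ (mul_mem hx' hy'), ← map_mul, sub_eq_zero]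
    rfl

theorem lrep_one {g : G} (ρ : ∀ S, KS g S →* Matrix (Fin n) (Fin n) (R S))
    (h : lrep ρ g = 1) : ∃ S, ρ S ⟨g, mem_KS g S⟩ = 1 := by
  classical
  have h1 : (Ideal.Quotient.mk (evI R)).mapMatrix (fam ρ g - 1) = 0 := by
    rw [map_sub, map_one, sub_eq_zero]
    exact h
  have h2 : ∀ i j, ∀ᶠ S in atTop, (fam ρ g - 1) i j S = 0 := by
    intro i j
    have h3 := congrFun (congrFun h1 i) j
    exact Ideal.Quotient.eq_zero_iff_mem.1 h3
  have h3 : ∀ᶠ S in atTop, ∀ i j, (fam ρ g - 1) i j S = 0 :=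
    eventually_all.2 fun i => eventually_all.2 fun j => h2 i j
  obtain ⟨S, hS⟩ := h3.exists
  refine ⟨S, ?_⟩
  ext i j
  have h4 := hS i j
  rw [← fam_eq ρ (mem_KS g S) i j]
  have h5 : (fam ρ g - 1) i j S = fam ρ g i j S - (1 : Matrix (Fin n) (Fin n) (∀ S, R S)) i j S :=
    rfl
  rw [h5, sub_eq_zero] at h4
  rw [h4]
  by_cases hij : i = j
  · subst hij
    rw [Matrix.one_apply_eq, Matrix.one_apply_eq]
    rfl
  · rw [Matrix.one_apply_ne hij, Matrix.one_apply_ne hij]
    rfl

/-- from global to local -/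
theorem local_of_global (n : ℕ)
    (hglob : ∀ (R : Type (max u v)) [CommRing R] (ρ : G →* Matrix (Fin n) (Fin n) R), ρ = 1)
    (g : G) : ∃ S : Finset G, ∀ (R : Type v) [CommRing R]
      (ρ : KS g S →* Matrix (Fin n) (Fin n) R), ρ ⟨g, mem_KS g S⟩ = 1 := by
  by_contra hcon
  push Not at hcon
  choose R hR ρ hρ using hcon
  obtain ⟨S, hS⟩ := lrep_one (R := R) ρ (by
    rw [hglob _ (lrep (R := R) ρ)]
    rfl)
  exact hρ S hS

end

end H64.BTL
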