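import Pool.Agent.H64.BTL.Stmts

/-!
Board `btl`, row PLP: places in characteristic `p`.
-/

set_option autoImplicit false

universe u

namespace Pool.BTL

open Polynomial

namespace H64PLP

set_option maxHeartbeats 400000

theorem root_of_algebraic (p : ℕ) [Fact p.Prime] {F : Type u} [Field F] [Algebra (ZMod p) F]
    {x : F} (hx : x ≠ 0) (h : IsIntegral (ZMod p) x) : ∃ m : ℕ, 0 < m ∧ x ^ m = 1 := by
  have hfin : Module.Finite (ZMod p) (Algebra.adjoin (ZMod p) {x}).toSubmodule :=
    Module.Finite.iff_fg.2 h.fg_adjoin_singleton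
  have hf : Finite (Algebra.adjoin (ZMod p) {x}).toSubmodule :=
    Module.finite_of_finite (ZMod p)
  have hmem : x ∈ Algebra.adjoin (ZMod p) {x} := Algebra.subset_adjoin (Set.mem_singleton x)
  let f : ℕ → (Algebra.adjoin (ZMod p) {x}).toSubmodule := fun m => ⟨x ^ m, pow_mem hmem m⟩
  obtain ⟨a, b, hab, hf'⟩ := Finite.exists_ne_map_eq_of_infinite f
  have h1 : x ^ a = x ^ b := congrArg Subtype.val hf'
  rcases lt_or_gt_of_ne hab with hlt | hlt
  · refine ⟨b - a, by omega, ?_⟩
    have h2 : x ^ a * x ^ (b - a) = x ^ a * 1 := by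
      rw [← pow_add, mul_one, h1]
      congr 1
      omega
    exact mul_left_cancel₀ (pow_ne_zero a hx) h2
  · refine ⟨a - b, by omega, ?_⟩
    have h2 : x ^ b * x ^ (a - b) = x ^ b * 1 := by
      rw [← pow_add, mul_one, ← h1]
      congr 1
      omega
    exact mul_left_cancel₀ (pow_ne_zero b hx) h2

theorem aeval_iff (p : ℕ) [Fact p.Prime] {F : Type u} [Field F] [Algebra (ZMod p) F]
    {x : F} (hx : x ≠ 0) (h : ∀ m : ℕ, 0 < m → x ^ m ≠ 1) (P : (ZMod p)[X]) :
    aeval x P = 0 ↔ P = 0 := by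
  constructor
  · intro hP
    by_contra hne
    have h1 : IsAlgebraic (ZMod p) x := ⟨P, hne, hP⟩
    obtain ⟨m, hm, hm'⟩ := root_of_algebraic p hx h1.isIntegral
    exact h m hm hm'
  · rintro rfl
    exact map_zero _

end H64PLP

open H64PLP in
theorem PLP_thm (hEXT : EXTStmt.{u}) (hLOC : LOCStmt) (hCMP : CMPStmt) : PLPStmt.{u} := by
  intro p _ F _ _ _ x hx hroot
  obtain ⟨k₀, _, _, _, _⟩ := hLOC p
  obtain ⟨k, _, _, _, ι, hι, hint⟩ := hCMP k₀
  obtain ⟨t, ht⟩ := NormedField.exists_one_lt_norm k₀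
  have ht0 : t ≠ 0 := by
    rintro rfl
    rw [norm_zero] at ht
    linarith
  let A := AlgebraicClosure k₀
  have : CharP A p := charP_of_injective_algebraMap (algebraMap k₀ A).injective p
  let _ : Algebra (ZMod p) A := ZMod.algebra A p
  let _ : Algebra (ZMod p) F := ZMod.algebra F p
  have hunc : Uncountable k₀ := by
    have h1 := continuum_le_cardinal_of_nontriviallyNormedField k₀
    rw [← Cardinal.aleph0_lt_mk_iff]
    exact lt_of_lt_of_le Cardinal.aleph0_lt_continuum (by simpa using h1)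
  have : Uncountable A := (algebraMap k₀ A).injective.uncountable
  obtain ⟨φ, hφ⟩ := hEXT (ZMod p) A F x (algebraMap k₀ A t) (fun P => by
    rw [aeval_iff p hx hroot, aeval_iff p (x := algebraMap k₀ A t)]
    · exact fun h => ht0 ((map_eq_zero _).1 h)
    · intro m hm h1
      rw [← map_pow, ← map_one (algebraMap k₀ A)] at h1
      have h2 := (algebraMap k₀ A).injective h1
      have h3 : ‖t‖ ^ m = 1 := by rw [← norm_pow, h2, norm_one]
      exact absurd h3 (one_lt_pow₀ ht hm.ne').ne')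
  refine ⟨k₀, k, inferInstance, inferInstance, inferInstance, inferInstance, inferInstance,
    ι.comp (φ : F →+* A), fun y => hint _, ?_⟩
  show ‖ι (φ x)‖ ≠ 1
  rw [hφ, hι]
  exact ht.ne'

end Pool.BTL
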