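import Pool.Agent.H64.BTL.Main
import Pool.Agent.H64.BTL.Loc
import Pool.Agent.H64.BTL.PLP
import Pool.Agent.H1.BTL.EIV
import Pool.Agent.H1.BTL.FLD
import Pool.Agent.H25.BTL.PLZ
import Pool.Agent.H33.BTL.LOC
import Pool.Agent.H52.BTL.UNI
import Pool.Agent.H54.BTL.DTB
import Pool.Agent.H65.BTL.CMP
import Pool.Agent.H67.BTL.EXT
import Pool.Agent.H71.BTL.INC
import Pool.Agent.H71.BTL.IND
import Pool.Agent.H72.BTL.ALG
import Pool.Agent.H80.BTL.PAD
import Pool.Agent.H91.BTL.INT

/-!
Torsion-free barely transitive groups have no nontrivial finite-dimensional representations over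
commutative rings.
-/

set_option autoImplicit false

universe u v w

namespace H64.BTL

open MulAction Pool.BTL

section
variable {G : Type u} {Ω : Type w} [Group G] [MulAction G Ω]

/-- all representations over commutative rings are trivial -/
theorem glob (hB : H47.BT.Bare G Ω) (R : Type v) [CommRing R] (n : ℕ)
    (ρ : G →* Matrix (Fin n) (Fin n) R) : ρ = 1 :=
  main_ring hB (fun F _ n ρ => main hB DTB_thm INC_thm IND_thm UNI_thm INT_thm
    (PLZ_thm EXT_thm ALG_thm PAD_thm) (PLP_thm EXT_thm LOC_thm CMP_thm) EIV_thm EXT_thm FLD_thm ρ) ρ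

/-- the local version -/
theorem locl (hB : H47.BT.Bare G Ω) (n : ℕ) (g : G) :
    ∃ K : Subgroup G, K.FG ∧ ∃ hg : g ∈ K, ∀ (R : Type v) [CommRing R]
      (ρ : K →* Matrix (Fin n) (Fin n) R), ρ ⟨g, hg⟩ = 1 := by
  obtain ⟨S, hS⟩ := local_of_global.{u, v} n (fun R _ ρ => glob hB R n ρ) g
  exact ⟨KS g S, KS_fg g S, mem_KS g S, hS⟩

end

end H64.BTL
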