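import Pool.Agent.H64.BTL.Cfg
import Pool.Agent.H64.BT.Pingb

/-!
The elements with given attracting and repelling sets move a point to infinitely many points.
-/

set_option autoImplicit false
set_option linter.unusedSectionVars false

namespace H64.BTL

open Filter Topology MulAction H64.BT

attribute [local instance] Matrix.linftyOpNormedAddCommGroup Matrix.linftyOpNormedSpace
  Matrix.linftyOpNormedRing Matrix.linftyOpNormedAlgebra

theorem Ev.and {Φ Ψ : ℝ → Prop} (h : Ev Φ) (h' : Ev Ψ) : Ev (fun ε => Φ ε ∧ Ψ ε) := by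
  obtain ⟨a, ha, h1⟩ := h
  obtain ⟨b, hb, h2⟩ := h'
  exact ⟨min a b, lt_min ha hb, fun ε hε hε' =>
    ⟨h1 ε hε (hε'.trans (min_le_left _ _)), h2 ε hε (hε'.trans (min_le_right _ _))⟩⟩

theorem Ev.all {Φ : Bool → ℝ → Prop} (h : ∀ b, Ev (Φ b)) : Ev (fun ε => ∀ b, Φ b ε) := by
  obtain ⟨a, ha, h1⟩ := (h true).and (h false)
  refine ⟨a, ha, fun ε hε hε' b => ?_⟩
  cases b with
  | true => exact (h1 ε hε hε').1
  | false => exact (h1 ε hε hε').2

section
variable {G k : Type*} [Group G] [NontriviallyNormedField k] [CompleteSpace k] {n : ℕ}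
  {ρ : G →* Matrix (Fin n) (Fin n) k}

theorem inv_mulVec (g : G) (x : Fin n → k) : (ρ g⁻¹).mulVec ((ρ g).mulVec x) = x := by
  rw [Matrix.mulVec_mulVec, ← map_mul, inv_mul_cancel, map_one, Matrix.one_mulVec]

theorem mulVec_ne {g : G} {x : Fin n → k} (hx : x ≠ 0) : (ρ g).mulVec x ≠ 0 := by
  intro h0
  apply hx
  rw [← inv_mulVec (ρ := ρ) g x, h0, Matrix.mulVec_zero]

/-- the action on nonzero vectors -/
@[reducible] def actX (ρ : G →* Matrix (Fin n) (Fin n) k) :
    MulAction G {x : Fin n → k // x ≠ 0} where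
  smul g x := ⟨(ρ g).mulVec x.1, mulVec_ne x.2⟩
  one_smul x := by
    apply Subtype.ext
    show (ρ 1).mulVec x.1 = x.1
    rw [map_one, Matrix.one_mulVec]
  mul_smul g h x := by
    apply Subtype.ext
    show (ρ (g * h)).mulVec x.1 = (ρ g).mulVec ((ρ h).mulVec x.1)
    rw [map_mul, Matrix.mulVec_mulVec]

/-- elements contracting like the configuration -/
def ZZ (ρ : G →* Matrix (Fin n) (Fin n) k) (P : Bool → Matrix (Fin n) (Fin n) k) (ε : ℝ) :
    Set G :=
  {z | ∀ b, ∀ x, x ≠ 0 → ¬ Rs (P b) ε x → As (P b) ε ((ρ (ltr z b)).mulVec x)}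

theorem h_mem {r : ℕ} {P : Bool → Matrix (Fin n) (Fin n) k} {e : ℕ → k} {h : ℕ → G}
    (hC : Cf ρ r P e h)
    {ε : ℝ} (hε : 0 < ε) : ∀ᶠ m in atTop, h m ∈ ZZ ρ P ε := by
  have key : ∀ b, ∀ᶠ m in atTop, ∀ x, x ≠ 0 → ¬ Rs (P b) ε x →
      As (P b) ε ((ρ (ltr (h m) b)).mulVec x) := by
    intro b
    exact contract (ρ := ρ) (Q := P b) (T := P b) one_pos (fun x => by rw [one_mul])
      (fun x => ⟨x, rfl⟩) (e := e) (h := fun m => ltr (h m) b) (hC.lim b) hε
  filter_upwards [key true, key false] with m h1 h2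
  intro b
  cases b with
  | true => exact h1
  | false => exact h2

/-- genericity -/
def Gn (ρ : G →* Matrix (Fin n) (Fin n) k) (P : Bool → Matrix (Fin n) (Fin n) k) (u : G) : Prop :=
  ∀ b, P b * ρ (ltr u b) * P b ≠ 0

theorem key' {r : ℕ} {P : Bool → Matrix (Fin n) (Fin n) k} {e : ℕ → k} {h : ℕ → G}
    (hC : Cf ρ r P e h) {u : G} (hu : Gn ρ P u) (b : Bool) :
    ∃ c : ℝ, 0 < c ∧ ∀ x, c * ‖(P b).mulVec x‖ ≤ ‖(P b * ρ (ltr u b) * P b).mulVec x‖ := by
  refine key (T' := P b * ρ (ltr u b)) ?_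
  refine (hC.rk b).trans (hC.mi _ (P (!b) * ρ (ltr u !b) * P (!b)) ?_ (hu b) (hu !b))
  have h1 : (ρ (ltr u b), ρ (ltr u !b)) ∈ LP ρ := by
    have h2 := mem_LP' (ρ := ρ) (ltr u b)
    have h3 : (ltr u b)⁻¹ = ltr u !b := by
      cases b with
      | true => rfl
      | false =>
        show (u⁻¹)⁻¹ = u
        rw [inv_inv]
    rwa [h3] at h2
  have h2 := LP_mul (LP_mul (hC.mem b) h1) (hC.mem b)
  rwa [← mul_assoc] at h2

theorem huh_mem {r : ℕ} {P : Bool → Matrix (Fin n) (Fin n) k} {e : ℕ → k} {h : ℕ → G}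
    (hC : Cf ρ r P e h)
    {ε : ℝ} (hε : 0 < ε) {u : G} (hu : Gn ρ P u) :
    ∀ᶠ m in atTop, h m * u * h m ∈ ZZ ρ P ε := by
  have key : ∀ b, ∀ᶠ m in atTop, ∀ x, x ≠ 0 → ¬ Rs (P b) ε x →
      As (P b) ε ((ρ (ltr (h m * u * h m) b)).mulVec x) := by
    intro b
    obtain ⟨c, hc, hkey⟩ := key' hC hu b
    refine contract (ρ := ρ) (Q := P b) (T := P b * ρ (ltr u b) * P b) hc hkey ?_
      (e := fun m => e m * e m) (h := fun m => ltr (h m * u * h m) b) ?_ hε
    · intro x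
      refine ⟨(ρ (ltr u b)).mulVec ((P b).mulVec x), ?_⟩
      rw [Matrix.mulVec_mulVec, Matrix.mulVec_mulVec, mul_assoc]
    · refine (((hC.lim b).mul_const (ρ (ltr u b))).mul (hC.lim b)).congr ?_
      intro m
      show (e m • ρ (ltr (h m) b)) * ρ (ltr u b) * (e m • ρ (ltr (h m) b)) =
        (e m * e m) • ρ (ltr (h m * u * h m) b)
      rw [smul_mul_assoc, smul_mul_smul_comm, ← map_mul, ← map_mul]
      congr 2
      cases b with
      | true => rfl
      | false =>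
        show (h m)⁻¹ * u⁻¹ * (h m)⁻¹ = (h m * u * h m)⁻¹
        group
  filter_upwards [key true, key false] with m h1 h2
  intro b
  cases b with
  | true => exact h1
  | false => exact h2

theorem ZZ_inf {Ω : Type*} [MulAction G Ω] [IsPretransitive G Ω] [Infinite Ω] (hirr : Irr ρ)
    (hfi : ∀ N : Subgroup G, N.index ≠ 0 → N = ⊤)
    {r : ℕ} {P : Bool → Matrix (Fin n) (Fin n) k} {e : ℕ → k} {h : ℕ → G}
    (hC : Cf ρ r P e h)
    {ε : ℝ} (hε : 0 < ε) (ω : Ω) : ((fun g : G => g • ω) '' ZZ ρ P ε).Infinite := by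
  classical
  intro hfin
  set Δ : Finset Ω := hfin.toFinset with hΔ
  have hmemΔ : ∀ z ∈ ZZ ρ P ε, z • ω ∈ Δ := by
    intro z hz
    rw [hΔ, Set.Finite.mem_toFinset]
    exact ⟨z, hz, rfl⟩
  -- a value which is taken infinitely often
  obtain ⟨δ₀, hδ₀⟩ : ∃ δ₀, ∃ᶠ m in atTop, h m • ω = δ₀ := by
    by_contra hc
    push Not at hc
    have h1 : ∀ᶠ m in atTop, ∀ δ ∈ Δ, h m • ω ≠ δ := by
      rw [Finset.eventually_all]
      intro δ _
      exact hc δ
    obtain ⟨m, hm1, hm2⟩ := (h1.and (h_mem hC hε)).exists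
    exact hm1 _ (hmemΔ _ hm2) rfl
  set L : Set Ω := (fun u : G => u • δ₀) '' {u | Gn ρ P u} with hL
  have hLfin : L.Finite := by
    by_contra hinf
    obtain ⟨s, hs, hcard⟩ := Set.Infinite.exists_subset_card_eq hinf (Δ.card + 1)
    have h1 : ∀ δ ∈ s, ∃ u, Gn ρ P u ∧ u • δ₀ = δ := fun δ hδ => hs hδ
    choose! u hu1 hu2 using h1
    have h2 : ∀ᶠ m in atTop, ∀ δ ∈ s, h m * u δ * h m ∈ ZZ ρ P ε := by
      rw [Finset.eventually_all]
      intro δ hδ
      exact huh_mem hC hε (hu1 δ hδ)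
    obtain ⟨m, hm1, hm2⟩ := (hδ₀.and_eventually h2).exists
    have h3 : (s.image fun δ => h m • δ) ⊆ Δ := by
      intro x hx
      rw [Finset.mem_image] at hx
      obtain ⟨δ, hδ, rfl⟩ := hx
      have h4 := hmemΔ _ (hm2 δ hδ)
      rwa [mul_smul, mul_smul, hm1, hu2 δ hδ] at h4
    have h4 := Finset.card_le_card h3
    rw [Finset.card_image_of_injective _ (MulAction.injective (h m)), hcard] at h4
    omega
  obtain ⟨t, ht⟩ := move_off (G := G) hLfin.toFinset hLfin.toFinset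
  have hP : ∀ b, P b ≠ 0 := hC.ne
  have hinv : ∀ w : G, ∀ A : Matrix (Fin n) (Fin n) k, A ≠ 0 → ρ w * A ≠ 0 := by
    intro w A hA h0
    apply hA
    have : ρ w⁻¹ * (ρ w * A) = A := by
      rw [← mul_assoc, ← map_mul, inv_mul_cancel, map_one, one_mul]
    rw [← this, h0, mul_zero]
  have hinv' : ∀ w : G, ∀ A : Matrix (Fin n) (Fin n) k, A ≠ 0 → A * ρ w ≠ 0 := by
    intro w A hA h0
    apply hA
    have : A * ρ w * ρ w⁻¹ = A := by
      rw [mul_assoc, ← map_mul, mul_inv_cancel, map_one, mul_one]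
    rw [← this, h0, zero_mul]
  obtain ⟨u, hu⟩ := hirr.gen hfi (ι := Bool × Bool) (fun p => p.1)
    (fun p => if p.2 && p.1 then P p.1 * ρ t else P p.1)
    (fun p => if p.2 && !p.1 then ρ t⁻¹ * P p.1 else P p.1)
    (by
      rintro ⟨b, c⟩
      cases b <;> cases c
      · exact hP _
      · exact hP _
      · exact hP _
      · exact hinv' _ _ (hP _))
    (by
      rintro ⟨b, c⟩
      cases b <;> cases c
      · exact hP _
      · exact hinv _ _ (hP _)
      · exact hP _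
      · exact hP _)
  have hu1 : Gn ρ P u := by
    intro b
    cases b with
    | true => exact hu (true, false)
    | false => exact hu (false, false)
  have hu2 : Gn ρ P (t * u) := by
    intro b
    cases b with
    | true =>
      have h1 : P true * ρ t * ρ u * P true ≠ 0 := hu (true, true)
      show P true * ρ (t * u) * P true ≠ 0
      rwa [map_mul, ← mul_assoc]
    | false =>
      have h1 : P false * ρ u⁻¹ * (ρ t⁻¹ * P false) ≠ 0 := hu (false, true)
      show P false * ρ (t * u)⁻¹ * P false ≠ 0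
      rw [mul_inv_rev, map_mul, mul_assoc, mul_assoc]
      rwa [mul_assoc] at h1
  have h1 : u • δ₀ ∈ hLfin.toFinset := by
    rw [Set.Finite.mem_toFinset]
    exact ⟨u, hu1, rfl⟩
  have h2 : t • (u • δ₀) ∈ hLfin.toFinset := by
    rw [Set.Finite.mem_toFinset, ← mul_smul]
    exact ⟨t * u, hu2, rfl⟩
  exact ht _ h1 h2

end

end H64.BTL
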