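import Pool.Agent.H64.BTL.Lim

/-!
Contracting sequences whose inverses are contracting as well.
-/

set_option autoImplicit false
set_option linter.unusedSectionVars false

namespace H64.BTL

open Filter Topology H64.BT

attribute [local instance] Matrix.linftyOpNormedAddCommGroup Matrix.linftyOpNormedSpace
  Matrix.linftyOpNormedRing Matrix.linftyOpNormedAlgebra

section
variable {G k : Type*} [Group G] [NontriviallyNormedField k] [CompleteSpace k] {n : ℕ}
  {ρ : G →* Matrix (Fin n) (Fin n) k}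

theorem rho_mul_ne (w : G) {A : Matrix (Fin n) (Fin n) k} (hA : A ≠ 0) : ρ w * A ≠ 0 := by
  intro h0
  apply hA
  have : ρ w⁻¹ * (ρ w * A) = A := by
    rw [← mul_assoc, ← map_mul, inv_mul_cancel, map_one, one_mul]
  rw [← this, h0, mul_zero]

theorem mul_rho_ne (w : G) {A : Matrix (Fin n) (Fin n) k} (hA : A ≠ 0) : A * ρ w ≠ 0 := by
  intro h0
  apply hA
  have : A * ρ w * ρ w⁻¹ = A := by
    rw [mul_assoc, ← map_mul, mul_inv_cancel, map_one, mul_one]
  rw [← this, h0, zero_mul]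

theorem singular {P P' : Matrix (Fin n) (Fin n) k} (h : P * P' = 0) (h' : P' ≠ 0) :
    P.rank < n := by
  by_contra hcon
  push Not at hcon
  have h6 : LinearMap.range P.mulVecLin = ⊤ := by
    apply Submodule.eq_top_of_finrank_eq
    rw [Module.finrank_fin_fun]
    exact le_antisymm (by simpa using Submodule.finrank_le (LinearMap.range P.mulVecLin)) hcon
  have h7 : Function.Injective P.mulVecLin :=
    LinearMap.injective_iff_surjective.2 (LinearMap.range_eq_top.1 h6)
  apply h'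
  apply Matrix.toLin'.injective
  apply LinearMap.ext
  intro x
  rw [Matrix.toLin'_apply, map_zero, LinearMap.zero_apply]
  apply h7
  show P.mulVec (P'.mulVec x) = P.mulVec 0
  rw [Matrix.mulVec_mulVec, h, Matrix.zero_mulVec, Matrix.mulVec_zero]

/-- a contracting sequence with contracting inverses -/
structure Cf (ρ : G →* Matrix (Fin n) (Fin n) k) (r : ℕ) (P : Bool → Matrix (Fin n) (Fin n) k)
    (e : ℕ → k) (h : ℕ → G) : Prop where
  mi : Mi ρ r
  rk : ∀ b, (P b).rank ≤ r
  ne : ∀ b, P b ≠ 0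
  sq : ∀ b, P b * P b ≠ 0
  lim : ∀ b, Tendsto (fun m => e m • ρ (if b then h m else (h m)⁻¹)) atTop (𝓝 (P b))

theorem Cf.mem {r : ℕ} {P : Bool → Matrix (Fin n) (Fin n) k} {e : ℕ → k} {h : ℕ → G}
    (hC : Cf ρ r P e h) (b : Bool) : (P b, P !b) ∈ LP ρ := by
  have h1 : (P true, P false) ∈ LP ρ := by
    refine isClosed_closure.mem_of_tendsto ((hC.lim true).prodMk_nhds (hC.lim false)) ?_
    exact Eventually.of_forall fun m => mem_LP (e m) (e m) (h m)
  cases b with
  | true => exact h1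
  | false => exact LP_swap h1

theorem exists_cf {T₀ T₀' : Matrix (Fin n) (Fin n) k} (hT₀ : (T₀, T₀') ∈ LP ρ) (hne : T₀ ≠ 0)
    (hne' : T₀' ≠ 0) (hirr : Irr ρ) (hfi : ∀ N : Subgroup G, N.index ≠ 0 → N = ⊤) :
    ∃ r P e h, Cf ρ r P e h ∧ r ≤ T₀.rank := by
  obtain ⟨r, T, T', hT, hTne, hTne', hTr, hmi, hr⟩ := exists_Mi hT₀ hne hne'
  obtain ⟨c, d, g, hlim, hlim'⟩ := seq_lim hT
  obtain ⟨u, hu⟩ := hirr.gen hfi (ι := Bool) (fun b => b) (fun _ => T) (fun _ => T')
    (fun _ => hTne) (fun _ => hTne')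
  set P₀ : Bool → Matrix (Fin n) (Fin n) k := fun b => T * ρ (if b then u else u⁻¹) * T'
    with hP₀
  have hP₀ne : ∀ b, P₀ b ≠ 0 := hu
  have hrk : ∀ b, (P₀ b).rank ≤ r := by
    intro b
    rw [← hTr]
    exact (Matrix.rank_mul_le_left _ _).trans (Matrix.rank_mul_le_left _ _)
  have hlim0 : ∀ b, Tendsto (fun m => (c m * d m) •
      ρ (if b then g m * u * (g m)⁻¹ else (g m * u * (g m)⁻¹)⁻¹)) atTop (𝓝 (P₀ b)) := by
    intro b
    refine ((hlim.mul_const (ρ (if b then u else u⁻¹))).mul hlim').congr ?_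
    intro m
    show (c m • ρ (g m)) * ρ (if b then u else u⁻¹) * (d m • ρ (g m)⁻¹) = _
    rw [smul_mul_assoc, smul_mul_smul_comm, ← map_mul, ← map_mul]
    congr 2
    cases b with
    | true => rfl
    | false =>
      show g m * u⁻¹ * (g m)⁻¹ = (g m * u * (g m)⁻¹)⁻¹
      group
  obtain ⟨v, hv⟩ := hirr.gen hfi (ι := Bool) (fun b => b) P₀ P₀ hP₀ne hP₀ne
  have hvt : P₀ true * ρ v * P₀ true ≠ 0 := hv true
  have hvf : P₀ false * ρ v⁻¹ * P₀ false ≠ 0 := hv false
  refine ⟨r, fun b => if b then ρ v * P₀ true else P₀ false * ρ v⁻¹,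
    fun m => c m * d m, fun m => v * (g m * u * (g m)⁻¹), ⟨hmi, ?_, ?_, ?_, ?_⟩, hr⟩
  · intro b
    cases b with
    | true => exact (Matrix.rank_mul_le_right _ _).trans (hrk true)
    | false => exact (Matrix.rank_mul_le_left _ _).trans (hrk false)
  · intro b
    cases b with
    | true => exact rho_mul_ne v (hP₀ne true)
    | false => exact mul_rho_ne v⁻¹ (hP₀ne false)
  · intro b
    cases b with
    | true =>
      show ρ v * P₀ true * (ρ v * P₀ true) ≠ 0
      have h1 := rho_mul_ne (ρ := ρ) v hvt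
      rwa [mul_assoc, ← mul_assoc (P₀ true)]
    | false =>
      show P₀ false * ρ v⁻¹ * (P₀ false * ρ v⁻¹) ≠ 0
      have h1 := mul_rho_ne (ρ := ρ) v⁻¹ hvf
      rwa [← mul_assoc]
  · intro b
    cases b with
    | true =>
      refine ((hlim0 true).const_mul (ρ v)).congr ?_
      intro m
      show ρ v * ((c m * d m) • ρ (g m * u * (g m)⁻¹)) =
        (c m * d m) • ρ (v * (g m * u * (g m)⁻¹))
      rw [mul_smul_comm, ← map_mul]
    | false =>
      refine ((hlim0 false).mul_const (ρ v⁻¹)).congr ?_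
      intro m
      show ((c m * d m) • ρ (g m * u * (g m)⁻¹)⁻¹) * ρ v⁻¹ =
        (c m * d m) • ρ (v * (g m * u * (g m)⁻¹))⁻¹
      rw [smul_mul_assoc, ← map_mul, mul_inv_rev v]

end

end H64.BTL
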