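import Pool.Agent.H47.BT.Comm
import Pool.Agent.H64.BT.Ping

/-!
Torsion-free barely transitive groups: countable, perfect.
-/

set_option autoImplicit false

namespace H64.BTL

open MulAction commutatorElement

section
variable {G Ω : Type*} [Group G] [MulAction G Ω]

theorem countable_of_bare [IsPretransitive G Ω] [Infinite Ω]
    (bare : ∀ K : Subgroup G, K ≠ ⊤ → ∀ x : Ω, (orbit K x).Finite) : Countable G := by
  obtain ⟨ω⟩ : Nonempty Ω := inferInstance
  have e : ℕ ↪ Ω := Infinite.natEmbedding Ω
  have hex : ∀ i, ∃ g : G, g • ω = e i := fun i => exists_smul_eq G ω (e i)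
  choose g hg using hex
  set K := Subgroup.closure (Set.range g) with hK
  have hinf : (orbit K ω).Infinite := by
    refine Set.infinite_of_injective_forall_mem (f := fun i => e i) e.injective ?_
    intro i
    exact ⟨⟨g i, Subgroup.subset_closure ⟨i, rfl⟩⟩, hg i⟩
  have htop : K = ⊤ := by
    by_contra hne
    exact hinf (bare K hne ω)
  have h1 : Function.Surjective (FreeGroup.lift g) := by
    rw [← MonoidHom.range_eq_top, FreeGroup.range_lift_eq_closure]
    exact htop
  have h2 : Countable (FreeGroup ℕ) := by
    have h3 : Function.Surjective (FreeGroup.mk : List (ℕ × Bool) → FreeGroup ℕ) :=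
      Quot.mk_surjective
    exact h3.countable
  exact h1.countable

theorem perfect_of_bare (h : H47.BT.Bare G Ω) : commutator G = ⊤ := by
  rcases h.simple (commutator G) inferInstance with h1 | h1
  · exfalso
    obtain ⟨g, hg⟩ := h.exists_ne
    apply hg
    have h2 : g ∈ Subgroup.center G := by
      rw [Subgroup.mem_center_iff]
      intro a
      have h3 : ⁅a, g⁆ ∈ commutator G :=
        Subgroup.commutator_mem_commutator (Subgroup.mem_top a) (Subgroup.mem_top g)
      rw [h1, Subgroup.mem_bot, commutatorElement_eq_one_iff_mul_comm] at h3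
      exact h3
    rw [h.ctr] at h2
    exact h2
  · exact h1

theorem det_eq_one {k : Type*} [Field k] {n : ℕ} (hc : commutator G = ⊤)
    (ρ : G →* Matrix (Fin n) (Fin n) k) (g : G) : (ρ g).det = 1 := by
  let f : G →* kˣ := (Matrix.detMonoidHom.comp ρ).toHomUnits
  have h1 : commutator G ≤ f.ker := Abelianization.commutator_subset_ker f
  have h2 : f g = 1 := by
    have : g ∈ commutator G := by
      rw [hc]
      trivial
    exact h1 this
  have h3 := congrArg Units.val h2
  exact h3

/-- a homomorphism with a nontrivial element in the kernel is trivial -/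
theorem trivial_of_one {M : Type*} [Monoid M] (h : H47.BT.Bare G Ω) (ρ : G →* M) {g : G}
    (hg : g ≠ 1) (h1 : ρ g = 1) : ρ = 1 := by
  rcases h.simple ρ.ker inferInstance with h2 | h2
  · exfalso
    apply hg
    have h3 : g ∈ ρ.ker := h1
    rw [h2] at h3
    exact h3
  · ext x
    have h3 : x ∈ ρ.ker := by
      rw [h2]
      trivial
    exact h3

end

end H64.BTL
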