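import Pool.Agent.H64.BT.Zar

/-!
Pairs of limit operators of a linear group over a complete normed field.
-/

set_option autoImplicit false
set_option linter.unusedSectionVars false

namespace H64.BTL

open Filter Topology

attribute [local instance] Matrix.linftyOpNormedAddCommGroup Matrix.linftyOpNormedSpace
  Matrix.linftyOpNormedRing Matrix.linftyOpNormedAlgebra

section
variable {G k : Type*} [Group G] [NontriviallyNormedField k] [CompleteSpace k] {n : ℕ}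
  (ρ : G →* Matrix (Fin n) (Fin n) k)

/-- the limit pairs -/
def LP : Set (Matrix (Fin n) (Fin n) k × Matrix (Fin n) (Fin n) k) :=
  closure (Set.range fun p : (k × k) × G => (p.1.1 • ρ p.2, p.1.2 • ρ p.2⁻¹))

variable {ρ}

theorem mem_LP (c d : k) (g : G) : (c • ρ g, d • ρ g⁻¹) ∈ LP ρ :=
  subset_closure ⟨((c, d), g), rfl⟩

theorem mem_LP' (g : G) : (ρ g, ρ g⁻¹) ∈ LP ρ := by
  have := mem_LP (ρ := ρ) 1 1 g
  rwa [one_smul, one_smul] at this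

theorem LP_mul {a b a' b' : Matrix (Fin n) (Fin n) k} (ha : (a, a') ∈ LP ρ)
    (hb : (b, b') ∈ LP ρ) : (a * b, b' * a') ∈ LP ρ := by
  have hc : Continuous (Function.uncurry fun (p q : Matrix (Fin n) (Fin n) k ×
      Matrix (Fin n) (Fin n) k) => (p.1 * q.1, q.2 * p.2)) := by
    unfold Function.uncurry
    exact ((continuous_fst.comp continuous_fst).mul (continuous_fst.comp continuous_snd)).prodMk
      ((continuous_snd.comp continuous_snd).mul (continuous_snd.comp continuous_fst))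
  refine map_mem_closure₂ (f := fun (p q : Matrix (Fin n) (Fin n) k ×
      Matrix (Fin n) (Fin n) k) => (p.1 * q.1, q.2 * p.2)) hc ha hb ?_
  rintro _ ⟨⟨⟨c, d⟩, g⟩, rfl⟩ _ ⟨⟨⟨c', d'⟩, g'⟩, rfl⟩
  refine ⟨((c * c', d' * d), g * g'), ?_⟩
  show ((c * c') • ρ (g * g'), (d' * d) • ρ (g * g')⁻¹) =
    ((c • ρ g) * (c' • ρ g'), (d' • ρ g'⁻¹) * (d • ρ g⁻¹))
  rw [map_mul, smul_mul_smul_comm, smul_mul_smul_comm, mul_inv_rev, map_mul]

theorem LP_swap {a a' : Matrix (Fin n) (Fin n) k} (ha : (a, a') ∈ LP ρ) : (a', a) ∈ LP ρ := by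
  refine map_mem_closure (f := Prod.swap) continuous_swap ha ?_
  rintro _ ⟨⟨⟨c, d⟩, g⟩, rfl⟩
  refine ⟨((d, c), g⁻¹), ?_⟩
  show (d • ρ g⁻¹, c • ρ (g⁻¹)⁻¹) = (d • ρ g⁻¹, c • ρ g)
  rw [inv_inv]

/-- lower bound for the ranks in limit pairs -/
def Mi (ρ : G →* Matrix (Fin n) (Fin n) k) (r : ℕ) : Prop :=
  ∀ a a', (a, a') ∈ LP ρ → a ≠ 0 → a' ≠ 0 → r ≤ a.rank

theorem exists_Mi {a a' : Matrix (Fin n) (Fin n) k} (ha : (a, a') ∈ LP ρ) (h1 : a ≠ 0)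
    (h2 : a' ≠ 0) : ∃ r b b', (b, b') ∈ LP ρ ∧ b ≠ 0 ∧ b' ≠ 0 ∧ b.rank = r ∧ Mi ρ r ∧
      r ≤ a.rank := by
  let S : Set ℕ := {m | ∃ b b', (b, b') ∈ LP ρ ∧ b ≠ 0 ∧ b' ≠ 0 ∧ b.rank = m}
  have hne : S.Nonempty := ⟨a.rank, a, a', ha, h1, h2, rfl⟩
  obtain ⟨b, b', h3, h4, h5, h6⟩ := Nat.sInf_mem hne
  refine ⟨sInf S, b, b', h3, h4, h5, h6, ?_, Nat.sInf_le ⟨a, a', ha, h1, h2, rfl⟩⟩
  intro c c' h7 h8 h9
  exact Nat.sInf_le ⟨c, c', h7, h8, h9, rfl⟩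

/-- the key estimate -/
theorem key {T T' : Matrix (Fin n) (Fin n) k} (h : T.rank ≤ (T' * T).rank) :
    ∃ c : ℝ, 0 < c ∧ ∀ x, c * ‖T.mulVec x‖ ≤ ‖(T' * T).mulVec x‖ := by
  let W := LinearMap.range T.mulVecLin
  let f : W →ₗ[k] (Fin n → k) := T'.mulVecLin.domRestrict W
  have hrange : LinearMap.range f = LinearMap.range (T' * T).mulVecLin := by
    ext y
    constructor
    · rintro ⟨⟨_, x, rfl⟩, rfl⟩
      refine ⟨x, ?_⟩
      show (T' * T).mulVec x = T'.mulVec (T.mulVec x)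
      rw [Matrix.mulVec_mulVec]
    · rintro ⟨x, rfl⟩
      refine ⟨⟨T.mulVec x, x, rfl⟩, ?_⟩
      show T'.mulVec (T.mulVec x) = (T' * T).mulVec x
      rw [Matrix.mulVec_mulVec]
  have h1 : Module.finrank k (LinearMap.range f) + Module.finrank k (LinearMap.ker f) =
      Module.finrank k W := LinearMap.finrank_range_add_finrank_ker f
  have h2 : Module.finrank k W ≤ Module.finrank k (LinearMap.range f) := by
    rw [hrange]
    exact h
  have h3 : LinearMap.ker f = ⊥ := by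
    apply Submodule.finrank_eq_zero.1
    omega
  obtain ⟨K, hK, hf⟩ := f.exists_antilipschitzWith h3
  refine ⟨(K : ℝ)⁻¹, inv_pos.2 hK, fun x => ?_⟩
  have h4 := hf.le_mul_dist (⟨T.mulVec x, x, rfl⟩ : W) 0
  rw [dist_zero_right, map_zero, dist_zero_right] at h4
  have h5 : f ⟨T.mulVec x, x, rfl⟩ = (T' * T).mulVec x := by
    show T'.mulVec (T.mulVec x) = (T' * T).mulVec x
    rw [Matrix.mulVec_mulVec]
  rw [h5] at h4
  rw [inv_mul_le_iff₀ (by exact_mod_cast hK)]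
  exact h4

/-- repelling sets -/
def Rs (T : Matrix (Fin n) (Fin n) k) (ε : ℝ) (x : Fin n → k) : Prop :=
  ‖T.mulVec x‖ < ε * ‖x‖

/-- attracting sets -/
def As (T : Matrix (Fin n) (Fin n) k) (ε : ℝ) (x : Fin n → k) : Prop :=
  ∃ y, ‖x - T.mulVec y‖ < ε * ‖x‖

omit [CompleteSpace k] in
theorem As.smul {T : Matrix (Fin n) (Fin n) k} {ε : ℝ} {x : Fin n → k} {a : k}
    (h : As T ε (a • x)) : As T ε x := by
  obtain ⟨y, hy⟩ := h
  have ha : a ≠ 0 := by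
    rintro rfl
    rw [zero_smul, norm_zero, mul_zero] at hy
    exact absurd hy (not_lt_of_ge (norm_nonneg _))
  refine ⟨a⁻¹ • y, ?_⟩
  have h1 : a • x - T.mulVec y = a • (x - T.mulVec (a⁻¹ • y)) := by
    rw [Matrix.mulVec_smul, smul_sub, smul_smul, mul_inv_cancel₀ ha, one_smul]
  rw [h1, norm_smul, norm_smul] at hy
  have h2 : 0 < ‖a‖ := norm_pos_iff.2 ha
  have h3 : ‖a‖ * ‖x - T.mulVec (a⁻¹ • y)‖ < ‖a‖ * (ε * ‖x‖) := by
    calc _ < ε * (‖a‖ * ‖x‖) := hy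
      _ = _ := by ring
  exact lt_of_mul_lt_mul_left h3 h2.le

/-- contraction -/
theorem contract {Q T : Matrix (Fin n) (Fin n) k} {c : ℝ} (hc : 0 < c)
    (h1 : ∀ x, c * ‖Q.mulVec x‖ ≤ ‖T.mulVec x‖) (h2 : ∀ x, ∃ y, T.mulVec x = Q.mulVec y)
    {e : ℕ → k} {h : ℕ → G} (hlim : Tendsto (fun m => e m • ρ (h m)) atTop (𝓝 T))
    {ε : ℝ} (hε : 0 < ε) :
    ∀ᶠ m in atTop, ∀ x, x ≠ 0 → ¬ Rs Q ε x → As Q ε ((ρ (h m)).mulVec x) := by
  have hη : 0 < c * ε ^ 2 / (2 * (1 + ε)) := by positivity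
  filter_upwards [(Metric.tendsto_nhds.1 hlim) _ hη] with m hm x hx hR
  rw [dist_eq_norm] at hm
  set η := c * ε ^ 2 / (2 * (1 + ε)) with hηdef
  have hx0 : 0 < ‖x‖ := norm_pos_iff.2 hx
  have h3 : ε * ‖x‖ ≤ ‖Q.mulVec x‖ := not_lt.1 hR
  obtain ⟨y, hy⟩ := h2 x
  have h4 : ‖(e m • ρ (h m)).mulVec x - T.mulVec x‖ ≤ η * ‖x‖ := by
    rw [← Matrix.sub_mulVec]
    exact (Matrix.linfty_opNorm_mulVec _ _).trans
      (mul_le_mul_of_nonneg_right hm.le (norm_nonneg _))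
  have h5 : c * (ε * ‖x‖) ≤ ‖T.mulVec x‖ := le_trans (mul_le_mul_of_nonneg_left h3 hc.le) (h1 x)
  have h6 : ‖T.mulVec x‖ ≤ ‖(e m • ρ (h m)).mulVec x‖ +
      ‖(e m • ρ (h m)).mulVec x - T.mulVec x‖ := by
    have := norm_sub_norm_le (T.mulVec x) ((e m • ρ (h m)).mulVec x)
    rw [norm_sub_rev] at this
    linarith
  have h7 : As Q ε ((e m • ρ (h m)).mulVec x) := by
    refine ⟨y, ?_⟩
    rw [← hy]
    have h8 : (c * ε - η) * ‖x‖ ≤ ‖(e m • ρ (h m)).mulVec x‖ := by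
      have : (c * ε - η) * ‖x‖ = c * (ε * ‖x‖) - η * ‖x‖ := by ring
      linarith
    have h9 : η * (1 + ε) < ε * (c * ε) := by
      have h10 : η * (1 + ε) = c * ε ^ 2 / 2 := by
        rw [hηdef]
        field_simp
      rw [h10]
      have : 0 < c * ε ^ 2 := by positivity
      nlinarith
    have h11 : η * ‖x‖ < ε * ((c * ε - η) * ‖x‖) := by
      have : η < ε * (c * ε - η) := by nlinarith
      calc η * ‖x‖ < (ε * (c * ε - η)) * ‖x‖ := mul_lt_mul_of_pos_right this hx0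
        _ = _ := by ring
    calc ‖(e m • ρ (h m)).mulVec x - T.mulVec x‖ ≤ η * ‖x‖ := h4
      _ < ε * ((c * ε - η) * ‖x‖) := h11
      _ ≤ ε * ‖(e m • ρ (h m)).mulVec x‖ := mul_le_mul_of_nonneg_left h8 hε.le
  rw [Matrix.smul_mulVec] at h7
  exact h7.smul

/-- for all small positive `ε` -/
def Ev (Φ : ℝ → Prop) : Prop := ∃ ε₀ : ℝ, 0 < ε₀ ∧ ∀ ε, 0 < ε → ε ≤ ε₀ → Φ ε

/-- transversality -/
theorem trans {T T' : Matrix (Fin n) (Fin n) k} (h : T.rank ≤ (T' * T).rank) :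
    Ev fun ε => ∀ x, As T ε x → ¬ Rs T' ε x := by
  obtain ⟨c, hc, hkey⟩ := key h
  have hpos : 0 < 1 + c + ‖T'‖ := by positivity
  refine ⟨c / (1 + c + ‖T'‖), by positivity, ?_⟩
  rintro ε hε hε' x ⟨y, hy⟩ hR
  have h1 : ε * (1 + c + ‖T'‖) ≤ c := (le_div_iff₀ hpos).1 hε'
  have h2 : ‖(T' * T).mulVec y‖ ≤ ‖T'.mulVec x‖ + ‖T'‖ * (ε * ‖x‖) := by
    have h3 : (T' * T).mulVec y = T'.mulVec x - T'.mulVec (x - T.mulVec y) := by
      rw [Matrix.mulVec_sub, Matrix.mulVec_mulVec]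
      abel
    rw [h3]
    refine (norm_sub_le _ _).trans ?_
    have h4 : ‖T'.mulVec (x - T.mulVec y)‖ ≤ ‖T'‖ * (ε * ‖x‖) :=
      (Matrix.linfty_opNorm_mulVec _ _).trans
        (mul_le_mul_of_nonneg_left hy.le (norm_nonneg _))
    linarith
  have h5 : ‖x‖ ≤ ‖T.mulVec y‖ + ε * ‖x‖ := by
    have := norm_sub_norm_le x (T.mulVec y)
    linarith
  have h6 := hkey y
  have h7 : ‖T'.mulVec x‖ < ε * ‖x‖ := hR
  have h8 : c * (‖x‖ - ε * ‖x‖) ≤ c * ‖T.mulVec y‖ := mul_le_mul_of_nonneg_left (by linarith) hc.le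
  have hx : 0 ≤ ‖x‖ := norm_nonneg x
  have h9 : c * ‖x‖ < ε * (1 + c + ‖T'‖) * ‖x‖ := by
    have e1 : c * (‖x‖ - ε * ‖x‖) = c * ‖x‖ - ε * c * ‖x‖ := by ring
    have e2 : ε * (1 + c + ‖T'‖) * ‖x‖ = ε * ‖x‖ + ε * c * ‖x‖ + ‖T'‖ * (ε * ‖x‖) := by ring
    rw [e2]
    linarith
  have h10 : ε * (1 + c + ‖T'‖) * ‖x‖ ≤ c * ‖x‖ := mul_le_mul_of_nonneg_right h1 hx
  linarith

/-- the two sets do not cover -/
theorem noncover {T T' : Matrix (Fin n) (Fin n) k} (hT : T ≠ 0) (hT' : T'.rank < n) :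
    Ev fun ε => ∃ x, x ≠ 0 ∧ ¬ Rs T ε x ∧ ¬ As T' ε x := by
  have h1 : ∃ x, T.mulVec x ≠ 0 := by
    by_contra hc
    push Not at hc
    apply hT
    apply Matrix.toLin'.injective
    apply LinearMap.ext
    intro x
    rw [Matrix.toLin'_apply, hc, map_zero, LinearMap.zero_apply]
  have h2 : ∃ x, x ∉ LinearMap.range T'.mulVecLin := by
    by_contra hc
    push Not at hc
    have : LinearMap.range T'.mulVecLin = ⊤ := by
      rw [eq_top_iff]
      exact fun x _ => hc x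
    have h3 : T'.rank = n := by
      unfold Matrix.rank
      rw [this, finrank_top, Module.finrank_fin_fun]
    omega
  obtain ⟨x, hx1, hx2⟩ : ∃ x, T.mulVec x ≠ 0 ∧ x ∉ LinearMap.range T'.mulVecLin := by
    obtain ⟨a, ha⟩ := h1
    obtain ⟨b, hb⟩ := h2
    by_cases ha' : a ∈ LinearMap.range T'.mulVecLin
    · by_cases hb' : T.mulVec b = 0
      · refine ⟨a + b, ?_, ?_⟩
        · rw [Matrix.mulVec_add, hb', add_zero]
          exact ha
        · intro hc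
          apply hb
          have := Submodule.sub_mem _ hc ha'
          rwa [add_sub_cancel_left] at this
      · exact ⟨b, hb', hb⟩
    · exact ⟨a, ha, ha'⟩
  have hx0 : x ≠ 0 := by
    rintro rfl
    exact hx2 (Submodule.zero_mem _)
  have hxn : 0 < ‖x‖ := norm_pos_iff.2 hx0
  have hcl : IsClosed ((LinearMap.range T'.mulVecLin : Submodule k (Fin n → k)) :
      Set (Fin n → k)) := Submodule.closed_of_finiteDimensional _
  obtain ⟨δ, hδ, hball⟩ := Metric.isOpen_iff.1 hcl.isOpen_compl x hx2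
  refine ⟨min (‖T.mulVec x‖ / ‖x‖) (δ / ‖x‖), lt_min (div_pos (norm_pos_iff.2 hx1) hxn)
    (div_pos hδ hxn), ?_⟩
  intro ε hε hε'
  refine ⟨x, hx0, ?_, ?_⟩
  · intro hR
    have h3 : ε * ‖x‖ ≤ ‖T.mulVec x‖ :=
      (le_div_iff₀ hxn).1 (hε'.trans (min_le_left _ _))
    exact absurd hR (not_lt.2 h3)
  · rintro ⟨y, hy⟩
    have h3 : ε * ‖x‖ ≤ δ := (le_div_iff₀ hxn).1 (hε'.trans (min_le_right _ _))
    have h4 : T'.mulVec y ∈ Metric.ball x δ := by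
      rw [Metric.mem_ball, dist_comm, dist_eq_norm]
      exact lt_of_lt_of_le hy h3
    exact hball h4 ⟨y, rfl⟩

/-- limit pairs are limits of sequences -/
theorem seq_lim {a a' : Matrix (Fin n) (Fin n) k} (ha : (a, a') ∈ LP ρ) :
    ∃ (c d : ℕ → k) (g : ℕ → G), Tendsto (fun m => c m • ρ (g m)) atTop (𝓝 a) ∧
      Tendsto (fun m => d m • ρ (g m)⁻¹) atTop (𝓝 a') := by
  have h1 : ∀ m : ℕ, ∃ p : (k × k) × G,
      dist (p.1.1 • ρ p.2, p.1.2 • ρ p.2⁻¹) (a, a') < 1 / ((m : ℝ) + 1) := by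
    intro m
    obtain ⟨_, ⟨p, rfl⟩, hp⟩ := Metric.mem_closure_iff.1 ha (1 / ((m : ℝ) + 1))
      (by positivity)
    exact ⟨p, by rwa [dist_comm]⟩
  choose p hp using h1
  have h2 : Tendsto (fun m => dist ((p m).1.1 • ρ (p m).2, (p m).1.2 • ρ (p m).2⁻¹) (a, a'))
      atTop (𝓝 0) :=
    squeeze_zero (fun _ => dist_nonneg) (fun m => (hp m).le)
      tendsto_one_div_add_atTop_nhds_zero_nat
  have h3 := tendsto_iff_dist_tendsto_zero.2 h2
  exact ⟨fun m => (p m).1.1, fun m => (p m).1.2, fun m => (p m).2,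
    (continuous_fst.tendsto (a, a')).comp h3, (continuous_snd.tendsto (a, a')).comp h3⟩

end

end H64.BTL
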