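import Pool.Agent.H64.BTL.Grp

/-!
From fields to commutative rings: unipotent images of simple groups.
-/

set_option autoImplicit false

namespace H64.BTL

open MulAction commutatorElement

section
variable {G Ω R : Type*} [Group G] [MulAction G Ω] [CommRing R] {n : ℕ}

/-- the congruence subgroup of an ideal -/
def cng (ρ : G →* Matrix (Fin n) (Fin n) R) (I : Ideal R) : Subgroup G :=
  ((Ideal.Quotient.mk I).mapMatrix.toMonoidHom.comp ρ : G →* Matrix (Fin n) (Fin n) (R ⧸ I)).ker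

theorem mem_cng {ρ : G →* Matrix (Fin n) (Fin n) R} {I : Ideal R} {g : G} :
    g ∈ cng ρ I ↔ ∀ i j, (ρ g - 1) i j ∈ I := by
  have h1 : g ∈ cng ρ I ↔ (Ideal.Quotient.mk I).mapMatrix (ρ g) = 1 := Iff.rfl
  rw [h1, ← map_one (Ideal.Quotient.mk I).mapMatrix, ← sub_eq_zero, ← map_sub]
  constructor
  · intro h i j
    have h2 := congrFun (congrFun h i) j
    exact Ideal.Quotient.eq_zero_iff_mem.1 h2
  · intro h
    ext i j
    exact Ideal.Quotient.eq_zero_iff_mem.2 (h i j)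

theorem mul_entries {A B : Matrix (Fin n) (Fin n) R} {I J : Ideal R} (hA : ∀ i j, A i j ∈ I)
    (hB : ∀ i j, B i j ∈ J) (i j : Fin n) : (A * B) i j ∈ I * J := by
  rw [Matrix.mul_apply]
  exact Ideal.sum_mem _ fun l _ => Ideal.mul_mem_mul (hA i l) (hB l j)

theorem mul_entries_left {A B : Matrix (Fin n) (Fin n) R} {I : Ideal R}
    (hA : ∀ i j, A i j ∈ I) (i j : Fin n) : (A * B) i j ∈ I := by
  rw [Matrix.mul_apply]
  exact Ideal.sum_mem _ fun l _ => Ideal.mul_mem_right _ _ (hA i l)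

theorem comm_cng {ρ : G →* Matrix (Fin n) (Fin n) R} {I J : Ideal R} {x g : G}
    (hx : x ∈ cng ρ I) (hg : g ∈ cng ρ J) : ⁅x, g⁆ ∈ cng ρ (I * J) := by
  rw [mem_cng] at hx hg ⊢
  have h1 : ρ ⁅x, g⁆ - 1 = ((ρ x - 1) * (ρ g - 1) - (ρ g - 1) * (ρ x - 1)) * ρ (x⁻¹ * g⁻¹) := by
    have h2 : ρ ⁅x, g⁆ = ρ x * ρ g * ρ (x⁻¹ * g⁻¹) := by
      rw [← map_mul, ← map_mul, commutatorElement_def]
      congr 1
      group
    have h3 : ρ g * ρ x * ρ (x⁻¹ * g⁻¹) = 1 := by
      rw [← map_mul, ← map_mul]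
      have : g * x * (x⁻¹ * g⁻¹) = 1 := by group
      rw [this, map_one]
    have h4 : (ρ x - 1) * (ρ g - 1) - (ρ g - 1) * (ρ x - 1) = ρ x * ρ g - ρ g * ρ x := by
      noncomm_ring
    rw [h4, sub_mul, h3, h2]
  intro i j
  rw [h1]
  refine mul_entries_left (fun i j => ?_) i j
  rw [Matrix.sub_apply]
  refine Ideal.sub_mem _ (mul_entries hx hg i j) ?_
  rw [mul_comm I J]
  exact mul_entries hg hx i j

theorem ring_case (hB : H47.BT.Bare G Ω) (ρ : G →* Matrix (Fin n) (Fin n) R)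
    (h : ∀ g i j, IsNilpotent ((ρ g - 1) i j)) : ρ = 1 := by
  obtain ⟨x, hx⟩ := hB.exists_ne
  obtain ⟨g, hg⟩ : ∃ g : G, ⁅x, g⁆ ≠ 1 := by
    by_contra hcon
    push Not at hcon
    apply hx
    have h1 : x ∈ Subgroup.center G := by
      rw [Subgroup.mem_center_iff]
      intro a
      have h2 := hcon a
      rw [commutatorElement_eq_one_iff_mul_comm] at h2
      exact h2.symm
    rw [hB.ctr] at h1
    exact h1
  let s : Set R := Set.range (fun p : Fin n × Fin n => (ρ x - 1) p.1 p.2) ∪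
    Set.range (fun p : Fin n × Fin n => (ρ g - 1) p.1 p.2)
  have hsfin : s.Finite := (Set.finite_range _).union (Set.finite_range _)
  let I : Ideal R := Ideal.span s
  have hxI : x ∈ cng ρ I := mem_cng.2 fun i j => Ideal.subset_span (Or.inl ⟨(i, j), rfl⟩)
  have hgI : g ∈ cng ρ I := mem_cng.2 fun i j => Ideal.subset_span (Or.inr ⟨(i, j), rfl⟩)
  have htop : ∀ (K : Ideal R) (y : G), y ≠ 1 → y ∈ cng ρ K → cng ρ K = ⊤ := by
    intro K y hy hyK
    rcases hB.simple (cng ρ K) (MonoidHom.normal_ker _) with h1 | h1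
    · exfalso
      rw [h1] at hyK
      exact hy hyK
    · exact h1
  have hpow : ∀ m : ℕ, cng ρ (I ^ (m + 1)) = ⊤ := by
    intro m
    induction m with
    | zero =>
      rw [zero_add, pow_one]
      exact htop I x hx hxI
    | succ m ih =>
      refine htop _ _ hg ?_
      rw [pow_succ]
      exact comm_cng (by rw [ih]; trivial) hgI
  have hnil : IsNilpotent I := by
    have hle : I ≤ nilradical R := by
      refine Ideal.span_le.2 ?_
      rintro _ (⟨p, rfl⟩ | ⟨p, rfl⟩)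
      · exact h x p.1 p.2
      · exact h g p.1 p.2
    have hfg : I.FG := ⟨hsfin.toFinset, by rw [Set.Finite.coe_toFinset]⟩
    exact Ideal.FG.isNilpotent_iff_le_nilradical hfg |>.2 hle
  obtain ⟨m, hm⟩ := hnil
  have h1 : cng ρ (⊥ : Ideal R) = ⊤ := by
    rw [eq_top_iff, ← hpow m]
    intro y hy
    rw [mem_cng] at hy ⊢
    intro i j
    have h2 := hy i j
    rw [pow_succ, hm] at h2
    have h3 : (0 : Ideal R) * I = ⊥ := by rw [zero_mul]; rfl
    rwa [h3] at h2
  ext1 y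
  have h2 : y ∈ cng ρ (⊥ : Ideal R) := by
    rw [h1]
    trivial
  rw [mem_cng] at h2
  rw [← sub_eq_zero]
  ext i j
  exact h2 i j

end

end H64.BTL
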