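import Mathlib

/-!
# Board `btl`: torsion-free barely transitive groups are not linear (MP_c9ffa7_al)

THEOREM. Let `G` be a torsion-free barely transitive group and `F` any field. Every homomorphism
`G →* GL n F` is trivial. The dynamical core (irreducible representations over complete normed
fields, ping-pong) is done by helper64; the rows below are the arithmetic of the eigenvalues, the
existence of suitable absolute values, and composition series. Row `XXX` = `def XXXStmt : Prop`.
FILE: `Pool/Agent/H<k>/BTL/XXX.lean`, `import Pool.Agent.H64.BTL.Stmts` (nothing else; helper lemmas in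
a sub-namespace), `namespace Pool.BTL`, `theorem XXX_thm (h1 : YYYStmt) (h2 : ZZZStmt) ... : XXXStmt`
with the needs of the row as hypotheses in the order of the table. For a row with universes write
for example `universe u` and `theorem EXT_thm : EXTStmt.{u}`.
-/

set_option autoImplicit false

universe u v

namespace Pool.BTL

open Polynomial

/-- No invariant subspaces besides `⊥` and `⊤`. -/
def Irr {G : Type u} {k : Type v} [Group G] [Field k] {n : ℕ}
    (ρ : G →* Matrix (Fin n) (Fin n) k) : Prop :=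
  ∀ W : Submodule k (Fin n → k), (∀ g, ∀ x ∈ W, (ρ g).mulVec x ∈ W) → W = ⊥ ∨ W = ⊤

/-- There is an absolute value on `F` with `|x| ≠ 1`, such that `F` with it embeds in a complete field
`k`, and is algebraic over a locally compact subfield `k₀`. -/
def Place (F : Type u) [Field F] (x : F) : Prop :=
  ∃ (k₀ k : Type) (_ : NontriviallyNormedField k₀) (_ : ProperSpace k₀)
    (_ : NontriviallyNormedField k) (_ : CompleteSpace k) (_ : NormedAlgebra k₀ k)
    (φ : F →+* k), (∀ y, IsIntegral k₀ (φ y)) ∧ ‖φ x‖ ≠ 1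

/-! ### Embeddings of countable fields -/

/-- (EXT) An element `x` of a countable field `F ⊇ K` can be sent to any element `y` with the same
algebraic relations of an uncountable algebraically closed field `A ⊇ K`.
PROOF. `P ↦ P(x)`, `P ↦ P(y)` have the same kernel, so there is a `K`-isomorphism `K(x) ≃ K(y)`
(`IntermediateField.adjoin`; or: the ring hom `K[x] → A` is injective, extend it to the fraction field,
or treat the cases `x` algebraic (`IntermediateField.algHomAdjoinIntegralEquiv`, `IsAlgClosed`) and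
`x` transcendental (`x` in a transcendence basis) separately). Let `E = K(x)`, countable, `A` an
`E`-algebra in this way. `F` has a countable transcendence basis `B` over `E`, `A` an uncountable one
(`IsAlgClosed.cardinal_le_max_transcendence_basis`, `#E ≤ ℵ₀`), so there is an injection of `B` into the
second one; this gives `E(B) → A`, and `F` is algebraic over `E(B)`, so the map extends
(`IsAlgClosed.lift`, `IsAlgClosed.exists_...`). -/
def EXTStmt : Prop :=
  ∀ (K A : Type) (F : Type u) [Field K] [Countable K] [Field F] [Countable F] [Field A]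
    [IsAlgClosed A] [Uncountable A] [Algebra K F] [Algebra K A] (x : F) (y : A),
    (∀ P : K[X], aeval x P = 0 ↔ aeval y P = 0) → ∃ φ : F →ₐ[K] A, φ x = y

/-- (ALG) Kronecker's theorem with `p`-adic places. PROOF. `f = minpoly ℚ x`. If `x` is integral over
`ℤ` and all roots `y ∈ ℂ` of `f` have `‖y‖ = 1`, `x` is a root of unity:
`NumberField.Embeddings.pow_eq_one_of_norm_eq_one` for `K = ℚ⟮x⟯`. If `x` is not integral over `ℤ`,
some coefficient of the monic `f` is not an integer, so there is a prime `p` with `‖coeff‖ > 1` in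
`ℚ_[p]`. `f` splits in `PadicAlgCl p`; if all roots have norm `≤ 1` so have all coefficients (they lie
in the subring of the elements of norm `≤ 1`): contradiction. So some root has norm `> 1`. -/
def ALGStmt : Prop :=
  ∀ (F : Type u) [Field F] [CharZero F] (x : F), IsAlgebraic ℚ x → x ≠ 0 →
    (∀ m : ℕ, 0 < m → x ^ m ≠ 1) →
    (∃ y : ℂ, aeval y (minpoly ℚ x) = 0 ∧ ‖y‖ ≠ 1) ∨
    ∃ (p : ℕ) (_ : Fact p.Prime) (y : PadicAlgCl p), aeval y (minpoly ℚ x) = 0 ∧ ‖y‖ ≠ 1

/-- (PAD) PROOF. `k = ℂ_[p]` (`Mathlib.NumberTheory.Padics.Complex`). Uncountable: `ℚ_[p]` is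
(`continuum_le_cardinal_of_nontriviallyNormedField` or similar). Integrality: `PadicAlgCl p` is
algebraic over `ℚ_[p]`, `IsIntegral.map`. -/
def PADStmt : Prop :=
  ∀ (p : ℕ) [Fact p.Prime], Uncountable (PadicAlgCl p) ∧
    ∃ (k : Type) (_ : NontriviallyNormedField k) (_ : CompleteSpace k) (_ : NormedAlgebra ℚ_[p] k)
      (ι : PadicAlgCl p →+* k), (∀ x, ‖ι x‖ = ‖x‖) ∧ ∀ x, IsIntegral ℚ_[p] (ι x)

/-- (PLZ) Places in characteristic zero. Needs EXT, ALG, PAD. PROOF. If `x` is transcendental over `ℚ`
take a transcendental `y ∈ ℂ` with `‖y‖ > 1` (cardinality; or `y = 2 + ` a Liouville number), EXT with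
`K = ℚ`, `A = ℂ`, `k₀ = k = ℂ`. If `x` is algebraic, ALG gives `y`; `aeval x P = 0` iff `minpoly ℚ x ∣ P` iff
`aeval y P = 0` (the minimal polynomial is irreducible). EXT with `A = ℂ` (`k₀ = k = ℂ`) or
`A = PadicAlgCl p` (`k₀ = ℚ_[p]`, `k` from PAD). -/
def PLZStmt : Prop :=
  ∀ (F : Type u) [Field F] [CharZero F] [Countable F] (x : F), x ≠ 0 →
    (∀ m : ℕ, 0 < m → x ^ m ≠ 1) → Place F x

/-- (LOC) A local field of characteristic `p`. PROOF. Laurent series over `ZMod p`: for example
`LaurentSeries (ZMod p)` with `‖f‖ = 2 ^ (-order f)`; the closed unit ball is `ZMod p ^ ℕ`, compact. Or the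
theorems on compactness of the valuation ring (complete, discrete, finite residue field:
`Valued.integer.compactSpace_iff_...`, `properSpace_iff_compactSpace_integer`). Any construction is
welcome. -/
def LOCStmt : Prop :=
  ∀ (p : ℕ) [Fact p.Prime], ∃ (k₀ : Type) (_ : NontriviallyNormedField k₀) (_ : ProperSpace k₀)
    (_ : IsUltrametricDist k₀), CharP k₀ p

/-- (CMP) The completed algebraic closure. PROOF. As for `ℂ_[p]` in
`Mathlib.NumberTheory.Padics.Complex`: the spectral norm makes `AlgebraicClosure k₀` a normed field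
(`spectralNorm.normedField`), `k` is its completion. -/
def CMPStmt : Prop :=
  ∀ (k₀ : Type) [NontriviallyNormedField k₀] [CompleteSpace k₀] [IsUltrametricDist k₀],
    ∃ (k : Type) (_ : NontriviallyNormedField k) (_ : CompleteSpace k) (_ : NormedAlgebra k₀ k)
      (ι : AlgebraicClosure k₀ →+* k), (∀ x : k₀, ‖ι (algebraMap k₀ _ x)‖ = ‖x‖) ∧
        ∀ x, IsIntegral k₀ (ι x)

/-- (PLP) Places in characteristic `p`. Needs EXT, LOC, CMP. PROOF. `x` is transcendental over `ZMod p`
(a nonzero algebraic element generates a finite field, so it is a root of unity). `t ∈ k₀` with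
`1 < ‖t‖`: it is transcendental over `ZMod p` as well. EXT with `K = ZMod p`,
`A = AlgebraicClosure k₀` (uncountable as `k₀` is complete,
`continuum_le_cardinal_of_nontriviallyNormedField` or similar), `y = t`; compose with `ι`. -/
def PLPStmt : Prop :=
  ∀ (p : ℕ) [Fact p.Prime] (F : Type u) [Field F] [CharP F p] [Countable F] (x : F), x ≠ 0 →
    (∀ m : ℕ, 0 < m → x ^ m ≠ 1) → Place F x

/-- (FLD) Reduction to countable algebraically closed fields. PROOF. The subfield `F₀` generated by
the countably many entries of the matrices `ρ g` is countable (`Subfield.closure`,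
`Subfield.cardinalMk_closure_le_max` or directly), and so is its algebraic closure `F'`
(`Algebra.IsAlgebraic.cardinalMk_le_max`). -/
def FLDStmt : Prop :=
  ∀ (G : Type u) (F : Type v) [Group G] [Countable G] [Field F] (n : ℕ)
    (ρ : G →* Matrix (Fin n) (Fin n) F),
    ∃ (F' : Type v) (_ : Field F') (_ : IsAlgClosed F') (_ : Countable F')
      (ρ' : G →* Matrix (Fin n) (Fin n) F'), ∀ g, ρ' g = 1 → ρ g = 1

/-! ### Linear algebra -/

/-- (INT) A matrix with integral entries is integral. PROOF. Cayley-Hamilton: `M` is a root of its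
characteristic polynomial, which has coefficients in the integral closure `R` of `k₀` in `k`; so it is
integral over `R` and (`isIntegral_trans`) over `k₀`. Or: `k₁ = k₀(entries)` is a finite extension and
`M` lies in the image of the finite-dimensional `k₀`-algebra of matrices over `k₁`. -/
def INTStmt : Prop :=
  ∀ (k₀ k : Type) [Field k₀] [Field k] [Algebra k₀ k] (n : ℕ) (M : Matrix (Fin n) (Fin n) k),
    (∀ i j, IsIntegral k₀ (M i j)) → IsIntegral k₀ M

/-- (EIV) If all eigenvalues are roots of unity, `(A ^ N - 1) ^ n = 0` for some `N`. PROOF. The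
characteristic polynomial is a product of `n` factors `X - C c`, `c` an eigenvalue, `c ^ N = 1` for a
common `N > 0`; each factor divides `X ^ N - 1`. Cayley-Hamilton. -/
def EIVStmt : Prop :=
  ∀ (F : Type v) [Field F] [IsAlgClosed F] (n : ℕ) (A : Matrix (Fin n) (Fin n) F),
    (∀ (c : F) (v : Fin n → F), v ≠ 0 → A.mulVec v = c • v → ∃ m : ℕ, 0 < m ∧ c ^ m = 1) →
    ∃ N : ℕ, 0 < N ∧ (A ^ N - 1) ^ n = 0

/-- (INC) Properties of eigenvalues of `ρ g` can be checked on the irreducible subquotients.
PROOF. Strong induction on `n`. If `ρ` is not irreducible let `W ≠ ⊥, ⊤` be invariant. If `v ∈ W`, let `ρ'`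
be the action on `W` in matrix form (`Module.finBasis`, `LinearMap.toMatrixAlgEquiv`); if `v ∉ W` the
action on the quotient by `W`, where the image of `v` is not zero and is an eigenvector. In both cases the
dimension is smaller and positive, and `aeval (ρ' g) P = 0` (an intertwining map `ι A = B ι` satisfies
`ι (aeval A P) = (aeval B P) ι`). -/
def INCStmt : Prop :=
  ∀ (G : Type u) (k : Type v) [Group G] [Field k] (g : G) (P : k[X]) (E : k → Prop),
    (∀ (n : ℕ) (ρ : G →* Matrix (Fin n) (Fin n) k), n ≠ 0 → Irr ρ → aeval (ρ g) P = 0 →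
      ∀ (c : k) (x : Fin n → k), x ≠ 0 → (ρ g).mulVec x = c • x → E c) →
    ∀ (n : ℕ) (ρ : G →* Matrix (Fin n) (Fin n) k), aeval (ρ g) P = 0 →
      ∀ (c : k) (x : Fin n → k), x ≠ 0 → (ρ g).mulVec x = c • x → E c

/-- (IND) For perfect groups triviality can be checked on the irreducible subquotients.
PROOF. Strong induction on `n` (as INC). If `W ≠ ⊥, ⊤` is invariant, `G` acts trivially on `W` and on the
quotient by induction. Then `ρ g x - x ∈ W` for all `x` and `(ρ g - 1)(ρ h - 1) = 0`, so
`ρ (g h) - 1 = (ρ g - 1) + (ρ h - 1)`: all `ρ g` commute, so the commutator subgroup acts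
trivially. -/
def INDStmt : Prop :=
  ∀ (G : Type u) (k : Type v) [Group G] [Field k] (g : G) (P : k[X]), commutator G = ⊤ →
    (∀ (n : ℕ) (ρ : G →* Matrix (Fin n) (Fin n) k), n ≠ 0 → Irr ρ → aeval (ρ g) P = 0 → ρ = 1) →
    ∀ (n : ℕ) (ρ : G →* Matrix (Fin n) (Fin n) k), aeval (ρ g) P = 0 → ρ = 1

attribute [local instance] Matrix.linftyOpNormedAddCommGroup Matrix.linftyOpNormedSpace
  Matrix.linftyOpNormedRing Matrix.linftyOpNormedAlgebra

/-- (DTB) Determinant one and bounded modulo scalars: bounded. PROOF. `1 = |det (B ^ m)| ≤ n! ‖B ^ m‖ ^ n`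
(`Matrix.det_le`, the entries are at most the norm), so `‖B ^ m‖ ≥ δ > 0` and `‖A ^ m‖ ≤ C / δ`; the same with
`A`, `B` exchanged. If `A x = c x`, `x ≠ 0` then `c ^ m x = A ^ m x`, `c⁻¹ ^ m x = B ^ m x`
(`Matrix.linfty_opNorm_mulVec`), so the powers of `‖c‖` and of its inverse are bounded. -/
def DTBStmt : Prop :=
  ∀ (k : Type) [NontriviallyNormedField k] (n : ℕ) (A B : Matrix (Fin n) (Fin n) k), n ≠ 0 →
    A * B = 1 → A.det = 1 → (∃ C : ℝ, ∀ m : ℕ, ‖A ^ m‖ * ‖B ^ m‖ ≤ C) →
    (∃ C : ℝ, ∀ m : ℕ, ‖A ^ m‖ ≤ C ∧ ‖B ^ m‖ ≤ C) ∧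
      ∀ (c : k) (x : Fin n → k), x ≠ 0 → A.mulVec x = c • x → ‖c‖ = 1

/-- (UNI) A unipotent complex matrix with bounded powers is `1`. PROOF. `N = A - 1`. If `N ≠ 0` let
`N ^ (d + 1) = 0`, `N ^ d ≠ 0`, `d ≥ 1`, `N ^ d x ≠ 0`, `w = N ^ (d - 1) x`: `N (N w) = 0`, so
`A ^ m w = w + m N w`, unbounded. -/
def UNIStmt : Prop :=
  ∀ (n : ℕ) (A : Matrix (Fin n) (Fin n) ℂ) (d : ℕ), (A - 1) ^ d = 0 →
    (∃ C : ℝ, ∀ m : ℕ, ‖A ^ m‖ ≤ C) → A = 1

end Pool.BTL
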