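import Pool.Agent.H64.BTL.Start
import Pool.Agent.H64.BTL.Rng
import Pool.Agent.H64.BTL.Stmts

/-!
Torsion-free barely transitive groups are not linear: the assembly.
-/

set_option autoImplicit false

universe u v w

namespace H64.BTL

open MulAction Polynomial

attribute [local instance] Matrix.linftyOpNormedAddCommGroup Matrix.linftyOpNormedSpace
  Matrix.linftyOpNormedRing Matrix.linftyOpNormedAlgebra

section
variable {G : Type u} {Ω : Type w} [Group G] [MulAction G Ω]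

theorem irr_iff {k : Type v} [Field k] {n : ℕ} {ρ : G →* Matrix (Fin n) (Fin n) k} :
    Pool.BTL.Irr ρ ↔ H64.BT.Irr ρ := Iff.rfl

/-- irreducible representations: bounded powers, eigenvalues of absolute value one -/
theorem irr_case (hB : H47.BT.Bare G Ω) (hDTB : Pool.BTL.DTBStmt) {k₀ k : Type}
    [NontriviallyNormedField k₀] [ProperSpace k₀] [NontriviallyNormedField k] [CompleteSpace k]
    [NormedAlgebra k₀ k] {n : ℕ} {ρ : G →* Matrix (Fin n) (Fin n) k} (hn : n ≠ 0)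
    (hirr : H64.BT.Irr ρ) (g : G) (hint : IsIntegral k₀ (ρ g)) :
    (∃ C : ℝ, ∀ m : ℕ, ‖ρ g ^ m‖ ≤ C) ∧
      ∀ (c : k) (x : Fin n → k), x ≠ 0 → (ρ g).mulVec x = c • x → ‖c‖ = 1 := by
  have := hB.trans
  have := hB.inf
  have h1 : ρ g * ρ g⁻¹ = 1 := by rw [← map_mul, mul_inv_cancel, map_one]
  obtain ⟨⟨C, hC⟩, h2⟩ := hDTB k n (ρ g) (ρ g⁻¹) hn h1 (det_eq_one (perfect_of_bare hB) ρ g)
    (powers_bdd hB.bare hn hirr g hint)
  exact ⟨⟨C, fun m => (hC m).1⟩, h2⟩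

/-- eigenvalues have absolute value one -/
theorem eig_case (hB : H47.BT.Bare G Ω) (hDTB : Pool.BTL.DTBStmt) (hINC : Pool.BTL.INCStmt.{u, 0})
    {k₀ k : Type}
    [NontriviallyNormedField k₀] [ProperSpace k₀] [NontriviallyNormedField k] [CompleteSpace k]
    [NormedAlgebra k₀ k] {n : ℕ} (ρ : G →* Matrix (Fin n) (Fin n) k) (g : G)
    (hint : IsIntegral k₀ (ρ g)) (c : k) (x : Fin n → k) (hx : x ≠ 0)
    (hc : (ρ g).mulVec x = c • x) : ‖c‖ = 1 := by
  obtain ⟨P, hP, hP'⟩ := hint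
  have hae : ∀ {m : ℕ} (A : Matrix (Fin m) (Fin m) k),
      aeval A (P.map (algebraMap k₀ k)) = eval₂ (algebraMap k₀ (Matrix (Fin m) (Fin m) k)) A P := by
    intro m A
    rw [aeval_map_algebraMap]
    rfl
  refine hINC G k g (P.map (algebraMap k₀ k)) (fun c => ‖c‖ = 1) ?_ n ρ ?_ c x hx hc
  · intro m ρ' hm hirr h0 c x hx hc
    refine (irr_case (k₀ := k₀) hB hDTB hm hirr g ⟨P, hP, ?_⟩).2 c x hx hc
    rw [← hae, h0]
  · rw [hae, hP']

theorem no_root (hB : H47.BT.Bare G Ω) (hDTB : Pool.BTL.DTBStmt)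
    (hINC : Pool.BTL.INCStmt.{u, 0}) (hINT : Pool.BTL.INTStmt)
    {F : Type v} [Field F] {n : ℕ} (ρ : G →* Matrix (Fin n) (Fin n) F) (g : G) (c : F)
    (x : Fin n → F) (hx : x ≠ 0) (hc : (ρ g).mulVec x = c • x) : ¬ Pool.BTL.Place F c := by
  rintro ⟨k₀, k, _, _, _, _, _, φ, hφ, hne⟩
  apply hne
  let ρ' : G →* Matrix (Fin n) (Fin n) k := (φ.mapMatrix : Matrix (Fin n) (Fin n) F →+*
    Matrix (Fin n) (Fin n) k).toMonoidHom.comp ρ
  have h1 : ∀ g, ρ' g = (ρ g).map φ := fun g => rfl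
  refine eig_case (k₀ := k₀) hB hDTB hINC ρ' g (hINT k₀ k n _ fun i j => hφ _) (φ c)
    (fun i => φ (x i)) ?_ ?_
  · intro h0
    apply hx
    funext i
    have h2 := congrFun h0 i
    exact (map_eq_zero φ).1 h2
  · rw [h1]
    funext i
    have h2 := congrArg φ (congrFun hc i)
    have h3 : ((ρ g).map φ).mulVec (fun i => φ (x i)) i = φ ((ρ g).mulVec x i) := by
      simp only [Matrix.mulVec, dotProduct, Matrix.map_apply, map_sum, map_mul]
    rw [h3, h2]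
    show φ (c * x i) = φ c * φ (x i)
    rw [map_mul]

theorem roots_one (hB : H47.BT.Bare G Ω) (hDTB : Pool.BTL.DTBStmt)
    (hINC : Pool.BTL.INCStmt.{u, 0}) (hINT : Pool.BTL.INTStmt) (hPLZ : Pool.BTL.PLZStmt.{v})
    (hPLP : Pool.BTL.PLPStmt.{v}) {F : Type v} [Field F] [Countable F]
    {n : ℕ} (ρ : G →* Matrix (Fin n) (Fin n) F) (g : G) (c : F)
    (x : Fin n → F) (hx : x ≠ 0) (hc : (ρ g).mulVec x = c • x) : ∃ m : ℕ, 0 < m ∧ c ^ m = 1 := by
  by_contra hcon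
  push Not at hcon
  have hc0 : c ≠ 0 := by
    rintro rfl
    apply hx
    have h1 : (ρ g⁻¹).mulVec ((ρ g).mulVec x) = x := by
      rw [Matrix.mulVec_mulVec, ← map_mul, inv_mul_cancel, map_one, Matrix.one_mulVec]
    rw [← h1, hc, zero_smul, Matrix.mulVec_zero]
  apply no_root hB hDTB hINC hINT ρ g c x hx hc
  obtain ⟨p, hp⟩ := CharP.exists F
  rcases CharP.char_is_prime_or_zero F p with h | h
  · have : Fact p.Prime := ⟨h⟩
    exact hPLP p F c hc0 hcon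
  · subst h
    have : CharZero F := CharP.charP_to_charZero F
    exact hPLZ F c hc0 hcon

/-- complex representations -/
theorem complex_case (hB : H47.BT.Bare G Ω) (hDTB : Pool.BTL.DTBStmt)
    (hIND : Pool.BTL.INDStmt.{u, 0}) (hUNI : Pool.BTL.UNIStmt)
    {n : ℕ} (ρ : G →* Matrix (Fin n) (Fin n) ℂ) (g : G) (hg : g ≠ 1) (N : ℕ) (hN : 0 < N)
    (h : (ρ g ^ N - 1) ^ n = 0) : ρ = 1 := by
  have hae : ∀ {m : ℕ} (A : Matrix (Fin m) (Fin m) ℂ),
      aeval A ((X ^ N - 1 : ℂ[X]) ^ n) = (A ^ N - 1) ^ n := by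
    intro m A
    simp
  refine hIND G ℂ g ((X ^ N - 1 : ℂ[X]) ^ n) (perfect_of_bare hB) ?_ n ρ ?_
  · intro m ρ' hm hirr h0
    rw [hae] at h0
    obtain ⟨⟨C, hC⟩, _⟩ := irr_case (k₀ := ℂ) (k := ℂ) hB hDTB hm hirr g
      (Algebra.IsIntegral.isIntegral _)
    have h1 : ρ' g ^ N = 1 := by
      refine hUNI m (ρ' g ^ N) n h0 ⟨C, fun j => ?_⟩
      rw [← pow_mul]
      exact hC _
    have h2 : g ^ N ≠ 1 := fun h3 => hg (hB.pw hN.ne' h3)
    refine trivial_of_one hB ρ' h2 ?_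
    rw [map_pow, h1]
  · rw [hae, h]

theorem char_p_case (hB : H47.BT.Bare G Ω) {p : ℕ} [Fact p.Prime] {F : Type v} [Field F]
    [CharP F p] {n : ℕ} (ρ : G →* Matrix (Fin n) (Fin n) F) (g : G) (hg : g ≠ 1) (N : ℕ)
    (hN : 0 < N) (h : (ρ g ^ N - 1) ^ n = 0) : ρ = 1 := by
  rcases Nat.eq_zero_or_pos n with hn | hn
  · subst hn
    ext x i
    exact i.elim0
  · have : Nonempty (Fin n) := ⟨⟨0, hn⟩⟩
    have h1 : ρ g ^ (N * p ^ n) = 1 := by
      have h2 : (ρ g ^ N - 1) ^ p ^ n = 0 := by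
        have h3 : n ≤ p ^ n := (Nat.lt_pow_self (Fact.out : p.Prime).one_lt).le
        exact pow_eq_zero_of_le h3 h
      have h4 : (ρ g ^ N - 1) ^ p ^ n = (ρ g ^ N) ^ p ^ n - 1 ^ p ^ n :=
        sub_pow_char_pow_of_commute p n (Commute.one_right (ρ g ^ N))
      rw [h4, one_pow, sub_eq_zero] at h2
      rw [pow_mul, h2]
    have h2 : g ^ (N * p ^ n) ≠ 1 := fun h3 =>
      hg (hB.pw (Nat.mul_ne_zero hN.ne' (pow_ne_zero _ (Fact.out : p.Prime).ne_zero)) h3)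
    refine trivial_of_one hB ρ h2 ?_
    rw [map_pow, h1]

theorem main (hB : H47.BT.Bare G Ω) (hDTB : Pool.BTL.DTBStmt) (hINC : Pool.BTL.INCStmt.{u, 0})
    (hIND : Pool.BTL.INDStmt.{u, 0}) (hUNI : Pool.BTL.UNIStmt) (hINT : Pool.BTL.INTStmt)
    (hPLZ : Pool.BTL.PLZStmt.{v}) (hPLP : Pool.BTL.PLPStmt.{v}) (hEIV : Pool.BTL.EIVStmt.{v})
    (hEXT : Pool.BTL.EXTStmt.{v}) (hFLD : Pool.BTL.FLDStmt.{u, v}) {F : Type v} [Field F] {n : ℕ}
    (ρ : G →* Matrix (Fin n) (Fin n) F) : ρ = 1 := by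
  have := hB.trans
  have := hB.inf
  have := countable_of_bare hB.bare
  obtain ⟨F', _, _, _, ρ', hρ'⟩ := hFLD G F n ρ
  suffices hs : ρ' = 1 by
    ext1 g
    exact hρ' g (by rw [hs]; rfl)
  obtain ⟨g, hg⟩ := hB.exists_ne
  obtain ⟨N, hN, hNn⟩ := hEIV F' n (ρ' g) fun c x hx hc =>
    roots_one hB hDTB hINC hINT hPLZ hPLP ρ' g c x hx hc
  obtain ⟨p, hp⟩ := CharP.exists F'
  rcases CharP.char_is_prime_or_zero F' p with h | h
  · have : Fact p.Prime := ⟨h⟩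
    exact char_p_case hB (p := p) ρ' g hg N hN hNn
  · subst h
    have : CharZero F' := CharP.charP_to_charZero F'
    have : Uncountable ℂ := (Complex.ofReal_injective).uncountable
    obtain ⟨φ, _⟩ := hEXT ℚ ℂ F' 0 0 (fun P => by
      rw [aeval_def, aeval_def, eval₂_at_zero, eval₂_at_zero, map_eq_zero, map_eq_zero])
    let ψ : Matrix (Fin n) (Fin n) F' →+* Matrix (Fin n) (Fin n) ℂ := (φ : F' →+* ℂ).mapMatrix
    have h1 := complex_case hB hDTB hIND hUNI (ψ.toMonoidHom.comp ρ') g hg N hN (by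
      show (ψ (ρ' g) ^ N - 1) ^ n = 0
      rw [← map_pow, ← map_one ψ, ← map_sub, ← map_pow, hNn, map_zero])
    ext1 x
    have h2 : ψ (ρ' x) = ψ 1 := by
      have := congrArg (fun f => f x) h1
      rw [map_one]
      exact this
    have hinj : Function.Injective ψ := by
      intro A B hAB
      ext i j
      have h3 := congrFun (congrFun hAB i) j
      exact (φ : F' →+* ℂ).injective h3
    exact hinj h2

/-- from fields to commutative rings -/
theorem main_ring (hB : H47.BT.Bare G Ω)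
    (hmain : ∀ (F : Type v) [Field F] (n : ℕ) (ρ : G →* Matrix (Fin n) (Fin n) F), ρ = 1)
    {R : Type v} [CommRing R] {n : ℕ} (ρ : G →* Matrix (Fin n) (Fin n) R) : ρ = 1 := by
  refine ring_case hB ρ fun g i j => ?_
  rw [← mem_nilradical, nilradical_eq_sInf, Ideal.mem_sInf]
  intro P hP
  have : P.IsPrime := hP
  let f : R →+* FractionRing (R ⧸ P) :=
    (algebraMap (R ⧸ P) (FractionRing (R ⧸ P))).comp (Ideal.Quotient.mk P)
  have h1 := hmain (FractionRing (R ⧸ P)) n (f.mapMatrix.toMonoidHom.comp ρ)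
  have h2 : f.mapMatrix (ρ g - 1) = 0 := by
    rw [map_sub, map_one, sub_eq_zero]
    exact congrArg (fun r => r g) h1
  have h3 : f ((ρ g - 1) i j) = 0 := congrFun (congrFun h2 i) j
  have h4 : Ideal.Quotient.mk P ((ρ g - 1) i j) = 0 := by
    refine IsFractionRing.injective (R ⧸ P) (FractionRing (R ⧸ P)) ?_
    rw [map_zero]
    exact h3
  exact Ideal.Quotient.eq_zero_iff_mem.1 h4

end

end H64.BTL
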