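import Pool.Agent.H64.BTL.Unb

/-!
Powers of elements which are algebraic over a locally compact subfield are bounded modulo scalars.
-/

set_option autoImplicit false
set_option linter.unusedSectionVars false

namespace H64.BTL

open Filter Topology MulAction H64.BT

attribute [local instance] Matrix.linftyOpNormedAddCommGroup Matrix.linftyOpNormedSpace
  Matrix.linftyOpNormedRing Matrix.linftyOpNormedAlgebra

section
variable {k₀ E : Type*} [NontriviallyNormedField k₀] [ProperSpace k₀] [NormedAddCommGroup E]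
  [NormedSpace k₀ E]

/-- rescaled sequences in finite-dimensional spaces have nonzero limits along subsequences -/
theorem comp_lim (V : Submodule k₀ E) [FiniteDimensional k₀ V] (x : ℕ → E) (hx : ∀ m, x m ∈ V)
    (hx0 : ∀ m, x m ≠ 0) : ∃ (φ : ℕ → ℕ) (d : ℕ → k₀) (T : E), StrictMono φ ∧ T ≠ 0 ∧
      (∀ m, ‖d m • x (φ m)‖ < 1) ∧ Tendsto (fun m => d m • x (φ m)) atTop (𝓝 T) := by
  have : ProperSpace V := FiniteDimensional.proper k₀ V
  obtain ⟨c, hc⟩ := NormedField.exists_one_lt_norm k₀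
  have h1 : ∀ m, ∃ d : k₀, ‖d • (⟨x m, hx m⟩ : V)‖ < 1 ∧ 1 / ‖c‖ ≤ ‖d • (⟨x m, hx m⟩ : V)‖ := by
    intro m
    obtain ⟨d, _, h2, h3, _⟩ := rescale_to_shell hc one_pos
      (x := (⟨x m, hx m⟩ : V)) (fun h => hx0 m (congrArg Subtype.val h))
    exact ⟨d, h2, h3⟩
  choose d hd1 hd2 using h1
  have hcpos : 0 < 1 / ‖c‖ := by positivity
  obtain ⟨T, hT, φ, hφ, hlim⟩ := (isCompact_closedBall (0 : V) 1).tendsto_subseq
    (x := fun m => d m • (⟨x m, hx m⟩ : V)) (fun m => by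
      rw [mem_closedBall_zero_iff]
      exact (hd1 m).le)
  refine ⟨φ, fun m => d (φ m), T, hφ, ?_, fun m => hd1 _, ?_⟩
  · intro h0
    have h00 : T = 0 := Subtype.ext h0
    rw [h00] at hlim
    have h4 := hlim.norm
    rw [norm_zero] at h4
    have h5 : 1 / ‖c‖ ≤ 0 := ge_of_tendsto' h4 fun m => hd2 _
    exact absurd h5 (not_le_of_gt hcpos)
  · exact (continuous_subtype_val.tendsto T).comp hlim

end

section
variable {k₀ k : Type*} [Field k₀] [Field k] [Algebra k₀ k] {n : ℕ}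

/-- the inverse of an integral matrix is a polynomial in it -/
theorem inv_mem_adjoin {A B : Matrix (Fin n) (Fin n) k} (hA : IsIntegral k₀ A)
    (hBA : B * A = 1) : B ∈ Algebra.adjoin k₀ {A} := by
  have hfg : (Algebra.adjoin k₀ {A}).toSubmodule.FG := hA.fg_adjoin_singleton
  have hfin : FiniteDimensional k₀ (Algebra.adjoin k₀ {A}) :=
    Module.Finite.iff_fg.2 hfg
  have hmem : A ∈ Algebra.adjoin k₀ {A} := Algebra.subset_adjoin rfl
  let f : Algebra.adjoin k₀ {A} →ₗ[k₀] Algebra.adjoin k₀ {A} :=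
    LinearMap.mulLeft k₀ (⟨A, hmem⟩ : Algebra.adjoin k₀ {A})
  have hinj : Function.Injective f := by
    intro x y hxy
    apply Subtype.ext
    have h1 : A * x.1 = A * y.1 := congrArg Subtype.val hxy
    calc x.1 = B * (A * x.1) := by rw [← mul_assoc, hBA, one_mul]
      _ = B * (A * y.1) := by rw [h1]
      _ = y.1 := by rw [← mul_assoc, hBA, one_mul]
  obtain ⟨y, hy⟩ := LinearMap.injective_iff_surjective.1 hinj 1
  have h1 : A * y.1 = 1 := congrArg Subtype.val hy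
  have h2 : y.1 = B := by
    calc y.1 = B * (A * y.1) := by rw [← mul_assoc, hBA, one_mul]
      _ = B := by rw [h1, mul_one]
  rw [← h2]
  exact y.2

end

section
variable {G k : Type*} [Group G] [NontriviallyNormedField k] [CompleteSpace k] {n : ℕ}
  {ρ : G →* Matrix (Fin n) (Fin n) k}

theorem rho_ne (hn : n ≠ 0) (g : G) : ρ g ≠ 0 := by
  intro h0
  have hne : Nonempty (Fin n) := ⟨⟨0, Nat.pos_of_ne_zero hn⟩⟩
  have h1 : ρ g * ρ g⁻¹ = 1 := by rw [← map_mul, mul_inv_cancel, map_one]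
  rw [h0, zero_mul] at h1
  exact one_ne_zero h1.symm

/-- in irreducible representations of barely transitive groups the powers of algebraic elements are
bounded modulo scalars -/
theorem powers_bdd {k₀ : Type*} [NontriviallyNormedField k₀] [ProperSpace k₀] [NormedAlgebra k₀ k]
    {Ω : Type*} [MulAction G Ω] [IsPretransitive G Ω] [Infinite Ω]
    (bare : ∀ K : Subgroup G, K ≠ ⊤ → ∀ x : Ω, (orbit K x).Finite) (hn : n ≠ 0)
    (hirr : Irr ρ) (g : G) (hint : IsIntegral k₀ (ρ g)) :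
    ∃ C : ℝ, ∀ m : ℕ, ‖ρ g ^ m‖ * ‖ρ g⁻¹ ^ m‖ ≤ C := by
  by_contra hcon
  push Not at hcon
  have h1 : ρ g * ρ g⁻¹ = 1 := by rw [← map_mul, mul_inv_cancel, map_one]
  have h2 : ρ g⁻¹ * ρ g = 1 := by rw [← map_mul, inv_mul_cancel, map_one]
  have hfg : (Algebra.adjoin k₀ {ρ g}).toSubmodule.FG := hint.fg_adjoin_singleton
  let V : Submodule k₀ (Matrix (Fin n) (Fin n) k) := (Algebra.adjoin k₀ {ρ g}).toSubmodule
  have hfin : FiniteDimensional k₀ V := Module.Finite.iff_fg.2 hfg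
  have hV : ∀ m, ρ g ^ m ∈ V := fun m => pow_mem (Algebra.subset_adjoin (Set.mem_singleton _)) m
  have hV' : ∀ m, ρ g⁻¹ ^ m ∈ V := fun m => pow_mem (inv_mem_adjoin hint h2) m
  choose N hN using fun j : ℕ => hcon (j : ℝ)
  obtain ⟨φ, c, T, hφ, hT0, hc, hlim⟩ := comp_lim (k₀ := k₀) V (fun j => ρ g ^ N j)
    (fun j => hV _) (fun j => by
      rw [← map_pow]
      exact rho_ne hn _)
  obtain ⟨ψ, d, T', hψ, hT0', hd, hlim'⟩ := comp_lim (k₀ := k₀) V (fun j => ρ g⁻¹ ^ N (φ j))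
    (fun j => hV' _) (fun j => by
      rw [← map_pow]
      exact rho_ne hn _)
  have hlim2 := hlim.comp hψ.tendsto_atTop
  have hsm : ∀ (a : k₀) (A : Matrix (Fin n) (Fin n) k), a • A = (algebraMap k₀ k a) • A :=
    fun a A => (algebraMap_smul k a A).symm
  have hpair : (T, T') ∈ LP ρ := by
    refine isClosed_closure.mem_of_tendsto (hlim2.prodMk_nhds hlim') ?_
    refine Eventually.of_forall fun m => ?_
    show (c (ψ m) • ρ g ^ N (φ (ψ m)), d m • ρ g⁻¹ ^ N (φ (ψ m))) ∈ LP ρ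
    rw [hsm, hsm, ← map_pow, ← map_pow, inv_pow]
    exact mem_LP _ _ _
  have h3 : ∀ m, (c (ψ m) • ρ g ^ N (φ (ψ m))) * (d m • ρ g⁻¹ ^ N (φ (ψ m))) =
      (c (ψ m) * d m) • (1 : Matrix (Fin n) (Fin n) k) := by
    intro m
    rw [smul_mul_smul_comm, ← map_pow, ← map_pow, ← map_mul, inv_pow, mul_inv_cancel, map_one]
  have h4 : Tendsto (fun m => (c (ψ m) * d m) • (1 : Matrix (Fin n) (Fin n) k)) atTop
      (𝓝 (T * T')) := by
    refine (hlim2.mul hlim').congr ?_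
    intro m
    exact h3 m
  have h5 : Tendsto (fun m => c (ψ m) * d m) atTop (𝓝 0) := by
    rw [tendsto_zero_iff_norm_tendsto_zero]
    refine squeeze_zero' (g := fun m : ℕ => 1 / ((m : ℝ)))
      (Eventually.of_forall fun _ => norm_nonneg _) ?_ tendsto_one_div_atTop_nhds_zero_nat
    filter_upwards [eventually_gt_atTop 0] with m hm
    have hm' : (0 : ℝ) < m := by exact_mod_cast hm
    have h4 := hc (ψ m)
    have h5 := hd m
    rw [norm_smul] at h4 h5
    have h6 := hN (φ (ψ m))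
    have h7 : (m : ℝ) ≤ (φ (ψ m) : ℝ) := by
      exact_mod_cast (hψ.id_le m).trans (hφ.id_le (ψ m))
    have h8 : (m : ℝ) < ‖ρ g ^ N (φ (ψ m))‖ * ‖ρ g⁻¹ ^ N (φ (ψ m))‖ := lt_of_le_of_lt h7 h6
    rw [le_div_iff₀ hm', norm_mul]
    have h9 : (‖c (ψ m)‖ * ‖ρ g ^ N (φ (ψ m))‖) * (‖d m‖ * ‖ρ g⁻¹ ^ N (φ (ψ m))‖) ≤ 1 := by
      have := mul_le_mul h4.le h5.le (by positivity) zero_le_one
      rwa [one_mul] at this
    have h10 : 0 ≤ ‖c (ψ m)‖ * ‖d m‖ := by positivity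
    calc ‖c (ψ m)‖ * ‖d m‖ * m
        ≤ ‖c (ψ m)‖ * ‖d m‖ * (‖ρ g ^ N (φ (ψ m))‖ * ‖ρ g⁻¹ ^ N (φ (ψ m))‖) :=
          mul_le_mul_of_nonneg_left h8.le h10
      _ = (‖c (ψ m)‖ * ‖ρ g ^ N (φ (ψ m))‖) * (‖d m‖ * ‖ρ g⁻¹ ^ N (φ (ψ m))‖) := by ring
      _ ≤ 1 := h9
  have h6 : T * T' = 0 := by
    have h7 : Tendsto (fun m => (c (ψ m) * d m) • (1 : Matrix (Fin n) (Fin n) k)) atTop
        (𝓝 ((0 : k₀) • (1 : Matrix (Fin n) (Fin n) k))) := h5.smul_const _
    rw [zero_smul] at h7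
    exact tendsto_nhds_unique h4 h7
  exact no_pair bare hirr hpair hT0 hT0' (singular h6 hT0')

end

end H64.BTL
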