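import Pool.Agent.H64.BTL.Bdd

/-!
Irreducible representations of barely transitive groups over complete fields have no singular limit
pairs: the ping-pong argument.
-/

set_option autoImplicit false
set_option linter.unusedSectionVars false

namespace H64.BTL

open Filter Topology MulAction H64.BT

attribute [local instance] Matrix.linftyOpNormedAddCommGroup Matrix.linftyOpNormedSpace
  Matrix.linftyOpNormedRing Matrix.linftyOpNormedAlgebra

section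
variable {G k : Type*} [Group G] [NontriviallyNormedField k] [CompleteSpace k] {n : ℕ}
  {ρ : G →* Matrix (Fin n) (Fin n) k}

/-- the transversality and noncovering properties -/
structure Tr (P S : Bool → Matrix (Fin n) (Fin n) k) (ε : ℝ) : Prop where
  pp : ∀ a x, As (P a) ε x → ¬ Rs (P a) ε x
  ps : ∀ a b x, As (P a) ε x → ¬ Rs (S b) ε x
  sp : ∀ a b x, As (S b) ε x → ¬ Rs (P a) ε x
  ss : ∀ b x, As (S b) ε x → ¬ Rs (S b) ε x
  np : ∀ a b, ∃ x, x ≠ 0 ∧ ¬ Rs (P a) ε x ∧ ¬ As (P b) ε x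
  ns : ∀ a b, ∃ x, x ≠ 0 ∧ ¬ Rs (P a) ε x ∧ ¬ As (S b) ε x

theorem exists_Tr {P S : Bool → Matrix (Fin n) (Fin n) k} (hP : ∀ b, P b ≠ 0)
    (hrP : ∀ b, (P b).rank < n) (hrS : ∀ b, (S b).rank < n)
    (h1 : ∀ a, (P a).rank ≤ (P a * P a).rank) (h2 : ∀ a b, (P a).rank ≤ (S b * P a).rank)
    (h3 : ∀ a b, (S b).rank ≤ (P a * S b).rank) (h4 : ∀ b, (S b).rank ≤ (S b * S b).rank) :
    ∃ ε : ℝ, 0 < ε ∧ Tr P S ε := by
  have E1 : Ev fun ε => ∀ a, ∀ x, As (P a) ε x → ¬ Rs (P a) ε x :=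
    Ev.all fun a => trans (h1 a)
  have E2 : Ev fun ε => ∀ a, ∀ b, ∀ x, As (P a) ε x → ¬ Rs (S b) ε x :=
    Ev.all fun a => Ev.all fun b => trans (h2 a b)
  have E3 : Ev fun ε => ∀ a, ∀ b, ∀ x, As (S b) ε x → ¬ Rs (P a) ε x :=
    Ev.all fun a => Ev.all fun b => trans (h3 a b)
  have E4 : Ev fun ε => ∀ b, ∀ x, As (S b) ε x → ¬ Rs (S b) ε x :=
    Ev.all fun b => trans (h4 b)
  have E5 : Ev fun ε => ∀ a, ∀ b, ∃ x, x ≠ 0 ∧ ¬ Rs (P a) ε x ∧ ¬ As (P b) ε x :=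
    Ev.all fun a => Ev.all fun b => noncover (hP a) (hrP b)
  have E6 : Ev fun ε => ∀ a, ∀ b, ∃ x, x ≠ 0 ∧ ¬ Rs (P a) ε x ∧ ¬ As (S b) ε x :=
    Ev.all fun a => Ev.all fun b => noncover (hP a) (hrS b)
  obtain ⟨ε, hε, hall⟩ := ((E1.and E2).and (E3.and E4)).and (E5.and E6)
  obtain ⟨⟨⟨a1, a2⟩, a3, a4⟩, a5, a6⟩ := hall ε hε le_rfl
  exact ⟨ε, hε, a1, a2, a3, a4, a5, a6⟩

theorem powers {S : Bool → Matrix (Fin n) (Fin n) k} {ε : ℝ} {s : G}
    (hss : ∀ b x, As (S b) ε x → ¬ Rs (S b) ε x)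
    (hs : ∀ b x, x ≠ 0 → ¬ Rs (S b) ε x → As (S b) ε ((ρ (ltr s b)).mulVec x)) (b : Bool)
    (m : ℕ) (x : Fin n → k) (hx : x ≠ 0) (h : ¬ Rs (S b) ε x) :
    As (S b) ε ((ρ (ltr s b ^ (m + 1))).mulVec x) := by
  induction m with
  | zero =>
    rw [zero_add, pow_one]
    exact hs b x hx h
  | succ m ih =>
    rw [pow_succ', map_mul, ← Matrix.mulVec_mulVec]
    exact hs b _ (mulVec_ne hx) (hss b _ ih)

theorem ltr_conj (a z : G) (b : Bool) : ltr (a * z * a⁻¹) b = a * ltr z b * a⁻¹ := by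
  cases b with
  | true => rfl
  | false =>
    show (a * z * a⁻¹)⁻¹ = a * z⁻¹ * a⁻¹
    group

/-- ping-pong -/
theorem pong_inj {P S : Bool → Matrix (Fin n) (Fin n) k} {ε : ℝ} (hT : Tr P S ε) {s : G}
    (hs : ∀ b x, x ≠ 0 → ¬ Rs (S b) ε x → As (S b) ε ((ρ (ltr s b)).mulVec x))
    (ν : ℕ → ℕ) (hν : StrictMono ν) (z : ℕ → G) (hz : ∀ i, z i ∈ ZZ ρ P ε) :
    Function.Injective (FreeGroup.lift fun i => s ^ ν i * z i * (s ^ ν i)⁻¹) := by
  let _ := actX ρ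
  have hact : ∀ (g : G) (x : {x : Fin n → k // x ≠ 0}), (g • x).1 = (ρ g).mulVec x.1 :=
    fun g x => rfl
  have hup : ∀ {i j : ℕ}, ν j < ν i → ∃ m, (s ^ ν j)⁻¹ * s ^ ν i = ltr s true ^ (m + 1) := by
    intro i j h
    refine ⟨ν i - ν j - 1, ?_⟩
    have : ν i = ν j + (ν i - ν j - 1 + 1) := by omega
    show (s ^ ν j)⁻¹ * s ^ ν i = s ^ (ν i - ν j - 1 + 1)
    conv_lhs => rw [this]
    rw [pow_add, inv_mul_cancel_left]
  have hdown : ∀ {i j : ℕ}, ν i < ν j → ∃ m, (s ^ ν j)⁻¹ * s ^ ν i = ltr s false ^ (m + 1) := by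
    intro i j h
    obtain ⟨m, hm⟩ := hup h
    refine ⟨m, ?_⟩
    show (s ^ ν j)⁻¹ * s ^ ν i = s⁻¹ ^ (m + 1)
    rw [inv_pow]
    have h1 : (s ^ ν i)⁻¹ * s ^ ν j = s ^ (m + 1) := hm
    rw [← h1, mul_inv_rev, inv_inv]
  have hstep : ∀ i j : ℕ, ∀ x : {x : Fin n → k // x ≠ 0},
      (s ^ ν j)⁻¹ • x = ((s ^ ν j)⁻¹ * s ^ ν i) • ((s ^ ν i)⁻¹ • x) := by
    intro i j x
    rw [← mul_smul, mul_assoc, mul_inv_cancel, mul_one]
  refine pp2 _ (fun i b => {x : {x : Fin n → k // x ≠ 0} | As (P b) ε ((s ^ ν i)⁻¹ • x).1})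
    (fun i b => {x : {x : Fin n → k // x ≠ 0} | Rs (P b) ε ((s ^ ν i)⁻¹ • x).1}) ?_ ?_ ?_
  · intro i b x hx
    show As (P b) ε ((s ^ ν i)⁻¹ • (ltr (s ^ ν i * z i * (s ^ ν i)⁻¹) b • x)).1
    have h1 : (s ^ ν i)⁻¹ • (ltr (s ^ ν i * z i * (s ^ ν i)⁻¹) b • x) =
        ltr (z i) b • ((s ^ ν i)⁻¹ • x) := by
      rw [ltr_conj, ← mul_smul, ← mul_smul]
      congr 1
      group
    rw [h1, hact]
    exact hz i b _ ((s ^ ν i)⁻¹ • x).2 hx
  · intro i j b c hbc x hx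
    show ¬ Rs (P c) ε ((s ^ ν j)⁻¹ • x).1
    have hx' : As (P b) ε ((s ^ ν i)⁻¹ • x).1 := hx
    rcases lt_trichotomy (ν i) (ν j) with h | h | h
    · obtain ⟨m, hm⟩ := hdown h
      rw [hstep i j, hm, hact]
      exact hT.sp c false _ (powers hT.ss hs false m _ ((s ^ ν i)⁻¹ • x).2
        (hT.ps b false _ hx'))
    · have hij : i = j := hν.injective h
      subst hij
      rw [← hbc rfl]
      exact hT.pp b _ hx'
    · obtain ⟨m, hm⟩ := hup h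
      rw [hstep i j, hm, hact]
      exact hT.sp c true _ (powers hT.ss hs true m _ ((s ^ ν i)⁻¹ • x).2
        (hT.ps b true _ hx'))
  · intro i j b c
    have hback : ∀ (d : Bool) (m : ℕ), (s ^ ν j)⁻¹ * s ^ ν i = ltr s d ^ (m + 1) →
        ∃ x : {x : Fin n → k // x ≠ 0}, ¬ Rs (P b) ε ((s ^ ν i)⁻¹ • x).1 ∧
          ¬ As (P c) ε ((s ^ ν j)⁻¹ • x).1 := by
      intro d m hm
      obtain ⟨w, hw0, hw1, hw2⟩ := hT.ns b (!d)
      refine ⟨s ^ ν i • ⟨w, hw0⟩, ?_, ?_⟩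
      · rw [inv_smul_smul]
        exact hw1
      · rw [← mul_smul, hm, hact]
        intro hc
        apply hw2
        have h1 := powers hT.ss hs (!d) m _ (mulVec_ne hw0) (hT.ps c (!d) _ hc)
        rw [Matrix.mulVec_mulVec, ← map_mul] at h1
        have h2 : ltr s (!d) ^ (m + 1) * ltr s d ^ (m + 1) = 1 := by
          have h3 : ltr s (!d) = (ltr s d)⁻¹ := by
            cases d with
            | true => rfl
            | false =>
              show s = (s⁻¹)⁻¹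
              rw [inv_inv]
          rw [h3, inv_pow, inv_mul_cancel]
        rw [h2, map_one, Matrix.one_mulVec] at h1
        exact h1
    rcases lt_trichotomy (ν i) (ν j) with h | h | h
    · obtain ⟨m, hm⟩ := hdown h
      exact hback false m hm
    · have hij : i = j := hν.injective h
      subst hij
      obtain ⟨w, hw0, hw1, hw2⟩ := hT.np b c
      refine ⟨s ^ ν i • ⟨w, hw0⟩, ?_, ?_⟩
      · show ¬ Rs (P b) ε ((s ^ ν i)⁻¹ • (s ^ ν i • (⟨w, hw0⟩ : {x : Fin n → k // x ≠ 0}))).1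
        rw [inv_smul_smul]
        exact hw1
      · show ¬ As (P c) ε ((s ^ ν i)⁻¹ • (s ^ ν i • (⟨w, hw0⟩ : {x : Fin n → k // x ≠ 0}))).1
        rw [inv_smul_smul]
        exact hw2
    · obtain ⟨m, hm⟩ := hup h
      exact hback true m hm

theorem no_pair {Ω : Type*} [MulAction G Ω] [IsPretransitive G Ω] [Infinite Ω]
    (bare : ∀ K : Subgroup G, K ≠ ⊤ → ∀ x : Ω, (orbit K x).Finite)
    (hirr : Irr ρ) {T₀ T₀' : Matrix (Fin n) (Fin n) k} (hT₀ : (T₀, T₀') ∈ LP ρ) (hne : T₀ ≠ 0)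
    (hne' : T₀' ≠ 0) (hsing : T₀.rank < n) : False := by
  obtain ⟨ω⟩ : Nonempty Ω := inferInstance
  have hfi : ∀ N : Subgroup G, N.index ≠ 0 → N = ⊤ := no_fin_index bare
  obtain ⟨r, P, e, h, hC, hr⟩ := exists_cf hT₀ hne hne' hirr hfi
  have hrn : r < n := lt_of_le_of_lt hr hsing
  obtain ⟨t, ht⟩ := hirr.gen hfi (ι := Bool × Bool × Bool) (fun p => p.1) (fun p => P p.2.1)
    (fun p => P p.2.2) (fun p => hC.ne _) (fun p => hC.ne _)
  set S : Bool → Matrix (Fin n) (Fin n) k := fun b => ρ t * P b * ρ t⁻¹ with hSdef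
  have hSne : ∀ b, S b ≠ 0 := fun b => mul_rho_ne t⁻¹ (rho_mul_ne t (hC.ne b))
  have hSrk : ∀ b, (S b).rank ≤ r := fun b =>
    ((Matrix.rank_mul_le_left _ _).trans (Matrix.rank_mul_le_right _ _)).trans (hC.rk b)
  have hSmem : ∀ b, (S b, S !b) ∈ LP ρ := by
    intro b
    have h1 := LP_mul (LP_mul (mem_LP' (ρ := ρ) t) (hC.mem b)) (LP_swap (mem_LP' (ρ := ρ) t))
    rwa [← mul_assoc] at h1
  have hSP : ∀ a b, S b * P a ≠ 0 := by
    intro a b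
    have h1 : P b * ρ t⁻¹ * P a ≠ 0 := ht (false, b, a)
    have h2 := rho_mul_ne (ρ := ρ) t h1
    have h3 : S b * P a = ρ t * (P b * ρ t⁻¹ * P a) := by
      rw [hSdef]
      simp only [mul_assoc]
    rw [h3]
    exact h2
  have hPS : ∀ a b, P a * S b ≠ 0 := by
    intro a b
    have h1 : P a * ρ t * P b ≠ 0 := ht (true, a, b)
    have h2 := mul_rho_ne (ρ := ρ) t⁻¹ h1
    have h3 : P a * S b = P a * ρ t * P b * ρ t⁻¹ := by
      rw [hSdef]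
      simp only [mul_assoc]
    rw [h3]
    exact h2
  have hSS : ∀ b, S b * S b ≠ 0 := by
    intro b
    have h2 := mul_rho_ne (ρ := ρ) t⁻¹ (rho_mul_ne (ρ := ρ) t (hC.sq b))
    have h3 : S b * S b = ρ t * (P b * P b) * ρ t⁻¹ := by
      rw [hSdef]
      show ρ t * P b * ρ t⁻¹ * (ρ t * P b * ρ t⁻¹) = _
      have h4 : ρ t⁻¹ * ρ t = 1 := by rw [← map_mul, inv_mul_cancel, map_one]
      calc ρ t * P b * ρ t⁻¹ * (ρ t * P b * ρ t⁻¹)
          = ρ t * P b * (ρ t⁻¹ * ρ t) * P b * ρ t⁻¹ := by simp only [mul_assoc]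
        _ = ρ t * (P b * P b) * ρ t⁻¹ := by
          rw [h4, mul_one]
          simp only [mul_assoc]
    rw [h3]
    exact h2
  obtain ⟨ε, hε, hT⟩ := exists_Tr hC.ne (fun b => lt_of_le_of_lt (hC.rk b) hrn)
    (fun b => lt_of_le_of_lt (hSrk b) hrn)
    (fun a => (hC.rk a).trans (hC.mi _ _ (LP_mul (hC.mem a) (hC.mem a)) (hC.sq a) (hC.sq !a)))
    (fun a b => (hC.rk a).trans
      (hC.mi _ _ (LP_mul (hSmem b) (hC.mem a)) (hSP a b) (hPS (!a) (!b))))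
    (fun a b => (hSrk b).trans
      (hC.mi _ _ (LP_mul (hC.mem a) (hSmem b)) (hPS a b) (hSP (!a) (!b))))
    (fun b => (hSrk b).trans (hC.mi _ _ (LP_mul (hSmem b) (hSmem b)) (hSS b) (hSS !b)))
  obtain ⟨m, hm⟩ : ∃ m, ∀ b x, x ≠ 0 → ¬ Rs (S b) ε x →
      As (S b) ε ((ρ (ltr (t * h m * t⁻¹) b)).mulVec x) := by
    have key : ∀ b, ∀ᶠ m in atTop, ∀ x, x ≠ 0 → ¬ Rs (S b) ε x →
        As (S b) ε ((ρ (ltr (t * h m * t⁻¹) b)).mulVec x) := by
      intro b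
      refine contract (ρ := ρ) (Q := S b) (T := S b) one_pos (fun x => by rw [one_mul])
        (fun x => ⟨x, rfl⟩) (e := e) (h := fun m => ltr (t * h m * t⁻¹) b) ?_ hε
      refine (((hC.lim b).const_mul (ρ t)).mul_const (ρ t⁻¹)).congr ?_
      intro m
      show ρ t * (e m • ρ (ltr (h m) b)) * ρ t⁻¹ = e m • ρ (ltr (t * h m * t⁻¹) b)
      rw [ltr_conj, map_mul, map_mul, mul_smul_comm, smul_mul_assoc]
    obtain ⟨m, h1, h2⟩ := ((key true).and (key false)).exists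
    refine ⟨m, fun b => ?_⟩
    cases b with
    | true => exact h1
    | false => exact h2
  set s := t * h m * t⁻¹ with hs
  obtain ⟨ν, y, hν, hy, hyne⟩ := choose_inj (G := G) (Ω := Ω)
    (fun i => {g | ∃ z ∈ ZZ ρ P ε, g = s ^ i * z * (s ^ i)⁻¹}) ω (by
      intro i
      have h1 := ZZ_inf hirr hfi hC hε ((s ^ i)⁻¹ • ω)
      have h2 := h1.image (f := fun x : Ω => s ^ i • x) (MulAction.injective (s ^ i)).injOn
      refine h2.mono ?_
      rintro _ ⟨_, ⟨z, hz, rfl⟩, rfl⟩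
      refine ⟨s ^ i * z * (s ^ i)⁻¹, ⟨z, hz, rfl⟩, ?_⟩
      show (s ^ i * z * (s ^ i)⁻¹) • ω = s ^ i • (z • ((s ^ i)⁻¹ • ω))
      rw [mul_smul, mul_smul])
  choose z hz hyz using hy
  have hinj := pong_inj hT hm ν hν z hz
  have hyeq : y = fun i => s ^ ν i * z i * (s ^ ν i)⁻¹ := funext hyz
  rw [← hyeq] at hinj
  obtain ⟨K, hK, hK'⟩ := free_orbit y hinj ω hyne
  exact hK' (bare K hK ω)

end

end H64.BTL
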